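import Mathlib
import Pool.Agent.H852.NB.Collide

set_option autoImplicit false

/-!
# Weighted inequalities for points, and their composition
-/

namespace Pool.Agent.H852.ND

open MvPolynomial Pool.Agent.H932R5 Pool.Agent.H519R3.AC Pool.Agent.H852.NB

universe u

variable {K : Type u} [Field K] {E : ℕ}

/-- No nonzero polynomial of degree at most `d` vanishes to order `w i` at the points `x i`. -/
def Emp {ι : Type} (w : ι → ℕ) (x : ι → Fin (E + 1) → K) (d : ℕ) : Prop :=
  ∀ f : MvPolynomial (Fin (E + 1)) K, (∀ i, f ∈ pt (x i) ^ w i) →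
    (∀ α, coeff α f ≠ 0 → Finsupp.degree α ≤ d) → f = 0

theorem emp_iff {n : ℕ} {w : Fin n → ℕ} {x : Fin n → Fin (E + 1) → K} {d : ℕ} :
    Emp w x d ↔ EmptyAt (E := E) w x d := by
  unfold Emp EmptyAt
  refine forall_congr' fun f => ?_
  rw [mem_Z]
  rfl

theorem Emp.equiv {ι κ : Type} (e : ι ≃ κ) {w : ι → ℕ} {x : ι → Fin (E + 1) → K} {d : ℕ}
    (h : Emp w x d) : Emp (fun j => w (e.symm j)) (fun j => x (e.symm j)) d := by
  intro f hf hd
  refine h f (fun i => ?_) hd
  have := hf (e i)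
  simpa using this

theorem emp_collide [Infinite K] {ι κ : Type} [Fintype ι] [Fintype κ] (g : ι → κ) {w : ι → ℕ}
    {A : κ → ℕ} {Q : κ → Fin (E + 1) → K} {d : ℕ} (hQ : Emp A Q d) {R : ι → Fin (E + 1) → K}
    (hR : ∀ j, ∀ f : MvPolynomial (Fin (E + 1)) K, (∀ i, g i = j → f ∈ pt (R i) ^ w i) →
      (∀ α, coeff α f ≠ 0 → Finsupp.degree α < A j) → f = 0) :
    ∃ x : ι → Fin (E + 1) → K, Emp w x d := by
  classical
  let e := Fintype.equivFin ι
  let e' := Fintype.equivFin κ
  obtain ⟨x, hx⟩ := exists_collide (E := E) (K := K) (d := d)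
    (g := fun i => e' (g (e.symm i))) (w := fun i => w (e.symm i)) (A := fun j => A (e'.symm j))
    (Q := fun j => Q (e'.symm j)) (emp_iff.1 (hQ.equiv e')) (R := fun i => R (e.symm i))
    (fun j f hf hd => hR (e'.symm j) f (fun i hi => by
      have := hf (e i) (by simp [hi])
      simpa using this) hd)
  refine ⟨fun i => x (e i), ?_⟩
  have h1 := (emp_iff.2 hx).equiv e.symm
  simpa using h1

/-- The weighted inequality `∑ t i * w i ≤ c * d` for the multiplicities `w` of the polynomials of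
degree `d` at suitable (general) points. -/
def Nf (K : Type u) [Field K] (E : ℕ) {ι : Type} [Fintype ι] (t : ι → ℝ) (c : ℝ) : Prop :=
  ∀ (w : ι → ℕ) (d : ℕ), c * d < ∑ i, t i * w i → ∃ x : ι → Fin (E + 1) → K, Emp w x d

theorem Nf.equiv {ι κ : Type} [Fintype ι] [Fintype κ] (e : ι ≃ κ) {t : ι → ℝ} {c : ℝ}
    (h : Nf K E t c) : Nf K E (fun j => t (e.symm j)) c := by
  intro w d hd
  obtain ⟨x, hx⟩ := h (fun i => w (e i)) d (by
    rw [← e.symm.sum_comp (fun i => t i * (w (e i) : ℝ))]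
    simpa using hd)
  refine ⟨fun j => x (e.symm j), ?_⟩
  have h1 := hx.equiv e
  simpa using h1

theorem Nf.mono {ι : Type} [Fintype ι] {t t' : ι → ℝ} {c c' : ℝ} (h : Nf K E t c)
    (ht : ∀ i, t' i ≤ t i) (hc : c ≤ c') : Nf K E t' c' := by
  intro w d hd
  refine h w d ?_
  have h1 : c * (d : ℝ) ≤ c' * d := mul_le_mul_of_nonneg_right hc (Nat.cast_nonneg d)
  have h2 : ∑ i, t' i * (w i : ℝ) ≤ ∑ i, t i * (w i : ℝ) := Finset.sum_le_sum fun i _ =>
    mul_le_mul_of_nonneg_right (ht i) (Nat.cast_nonneg _)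
  linarith

/-- **Composition.** -/
theorem Nf.comp [Infinite K] {ι κ : Type} [Fintype ι] [Fintype κ] [DecidableEq κ] (g : ι → κ)
    {τ : κ → ℝ} {c : ℝ} (hτ : ∀ j, 0 ≤ τ j) (h : Nf K E τ c) {t : ι → ℝ} {cc : κ → ℝ}
    (hcc : ∀ j, 0 < cc j)
    (hgrp : ∀ j, Nf K E (fun i : {i // g i = j} => t i.1) (cc j)) :
    Nf K E (fun i => τ (g i) * (t i / cc (g i))) c := by
  classical
  intro w d hd
  let S : κ → ℝ := fun j => ∑ i : {i // g i = j}, t i.1 * (w i.1 : ℝ)
  let A : κ → ℕ := fun j => ⌈S j / cc j⌉₊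
  have hsum : ∑ i, τ (g i) * (t i / cc (g i)) * (w i : ℝ) = ∑ j, τ j * (S j / cc j) := by
    rw [← Finset.sum_fiberwise Finset.univ g]
    refine Finset.sum_congr rfl fun j _ => ?_
    have h1 : ∑ i ∈ Finset.univ with g i = j, τ (g i) * (t i / cc (g i)) * (w i : ℝ) =
        ∑ i ∈ Finset.univ with g i = j, τ j / cc j * (t i * (w i : ℝ)) := by
      refine Finset.sum_congr rfl fun i hi => ?_
      rw [(Finset.mem_filter.1 hi).2]
      ring
    rw [h1, ← Finset.mul_sum]
    have h2 : S j = ∑ i ∈ Finset.univ with g i = j, t i * (w i : ℝ) :=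
      (Finset.sum_subtype (Finset.univ.filter fun i => g i = j) (fun i => by simp)
        (fun i => t i * (w i : ℝ))).symm
    rw [← h2]
    ring
  rw [hsum] at hd
  obtain ⟨Q, hQ⟩ := h A d (lt_of_lt_of_le hd (Finset.sum_le_sum fun j _ =>
    mul_le_mul_of_nonneg_left (Nat.le_ceil _) (hτ j)))
  have hR : ∀ j, ∃ R : {i // g i = j} → Fin (E + 1) → K,
      ∀ f : MvPolynomial (Fin (E + 1)) K, (∀ i, f ∈ pt (R i) ^ w i.1) →
      (∀ α, coeff α f ≠ 0 → Finsupp.degree α < A j) → f = 0 := by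
    intro j
    rcases Nat.eq_zero_or_pos (A j) with h0 | h0
    · refine ⟨fun _ _ => 0, fun f _ hf => ?_⟩
      refine MvPolynomial.ext _ _ fun α => ?_
      by_contra hα
      have := hf α hα
      omega
    · have h1 : ((A j - 1 : ℕ) : ℝ) < S j / cc j := by
        rw [Nat.cast_sub h0]
        have h2 : (A j : ℝ) < S j / cc j + 1 := by
          have h3 : 0 ≤ S j / cc j := by
            by_contra hneg
            push Not at hneg
            have h4 : A j = 0 := Nat.ceil_eq_zero.2 hneg.le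
            omega
          exact Nat.ceil_lt_add_one h3
        push_cast
        linarith
      obtain ⟨R, hR⟩ := hgrp j (fun i => w i.1) (A j - 1) (by
        rw [lt_div_iff₀ (hcc j)] at h1
        rw [mul_comm]
        exact h1)
      refine ⟨R, fun f hf hd' => hR f hf fun α hα => ?_⟩
      have := hd' α hα
      omega
  choose R hR using hR
  exact emp_collide g hQ (R := fun i => R (g i) ⟨i, rfl⟩) fun j f hf hdeg =>
    hR j f (fun i => by
      have h1 := hf i.1 i.2
      obtain ⟨i, hi⟩ := i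
      subst hi
      exact h1) hdeg

/-- One point. -/
theorem nf_single {ι : Type} [Fintype ι] [DecidableEq ι] (i : ι) : Nf K E (fun j : ι => if j = i then (1 : ℝ) else 0) 1 := by
  classical
  intro w d hd
  refine ⟨fun _ _ => 0, fun f hf hfd => ?_⟩
  have h1 : (d : ℝ) < w i := by
    have h2 : ∑ j, (if j = i then (1 : ℝ) else 0) * (w j : ℝ) = w i := by simp
    rw [h2, one_mul] at hd
    exact hd
  have h2 : d < w i := by exact_mod_cast h1
  have h3 := mem_pt_pow_iff.1 (hf i)
  have h4 : shift (fun _ : Fin (E + 1) => (0 : K)) f = f := by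
    have : shift (fun _ : Fin (E + 1) => (0 : K)) = AlgHom.id K _ := by
      refine MvPolynomial.algHom_ext fun k => ?_
      rw [shift_X, C_0, add_zero, AlgHom.id_apply]
    rw [this, AlgHom.id_apply]
  rw [h4] at h3
  refine MvPolynomial.ext _ _ fun α => ?_
  by_contra hα
  exact hα (h3 α (lt_of_le_of_lt (hfd α hα) h2))

end Pool.Agent.H852.ND
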