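import Mathlib
import Pool.Agent.H852.ND.Nf

set_option autoImplicit false

/-!
# The inequality `∑ t i * m i ≤ ((1 + 1 / B) |t| + 5 B ^ 3 max t) d` for all weights
-/

namespace Pool.Agent.H852.ND

open MvPolynomial Pool.Agent.H932R5 Pool.Agent.H519R3.AC

universe u

variable {K : Type u} [Field K] {E : ℕ}

/-- The case of `k ^ (E + 1)` points. -/
theorem nf_power [Infinite K] {k : ℕ} (hk : 1 ≤ k) :
    Nf K E (fun _ : Fin (k ^ (E + 1)) => (1 : ℝ)) ((k : ℝ) ^ E) := by
  intro w d hd
  have hk1 : (1 : ℝ) ≤ k := by exact_mod_cast hk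
  have hk0 : (0 : ℝ) < k := by linarith
  have h := full_main (K := K) (E := E) (base_pts w) (L := (k : ℝ)) (μ := 1) (d := d)
    (fun E t ht => ⟨((k : ℝ) ^ (E + 1 - t)), by
      have h1 : ((k : ℝ) ^ (E + 1 - t)) = ((k ^ (E - t) : ℕ) : ℝ) ^ 2 / (k : ℝ) ^ (E - 1 - t) := by
        rw [eq_div_iff (by positivity)]
        push_cast
        rw [← pow_add, ← pow_mul]
        congr 1
        omega
      rw [h1]
      refine Up.step _ _ Up.base ?_
      push_cast
      exact pow_le_pow_right₀ hk1 (by omega), le_rfl, by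
      rw [div_self (by positivity), Real.sqrt_one]⟩) hk1 le_rfl (by push_cast; rfl) (by
      rw [one_pow, one_mul]
      push_cast
      simpa using hd)
  obtain ⟨x, hx⟩ := h
  exact ⟨x, emp_iff.2 hx⟩

theorem Nf.restrict {ι κ : Type} [Fintype ι] [Fintype κ] (e : κ ↪ ι) {t : ι → ℝ} {c : ℝ}
    (h : Nf K E t c) : Nf K E (fun j => t (e j)) c := by
  classical
  intro w d hd
  let w' : ι → ℕ := Function.extend e w (fun _ => 0)
  have hw' : ∀ j, w' (e j) = w j := fun j => e.injective.extend_apply w _ j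
  have hw0 : ∀ i, i ∉ Set.range e → w' i = 0 := fun i hi =>
    Function.extend_apply' w _ i (fun ⟨a, ha⟩ => hi ⟨a, ha⟩)
  obtain ⟨x, hx⟩ := h w' d (by
    have h1 : ∑ i, t i * (w' i : ℝ) = ∑ j, t (e j) * (w j : ℝ) := by
      rw [← Finset.sum_subset (Finset.subset_univ (Finset.univ.map e)), Finset.sum_map]
      · exact Finset.sum_congr rfl fun j _ => by rw [hw' j]
      · intro i _ hi
        rw [hw0 i (fun ⟨a, ha⟩ => hi (Finset.mem_map.2 ⟨a, Finset.mem_univ a, ha⟩))]
        simp
    rw [h1]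
    exact hd)
  refine ⟨fun j => x (e j), fun f hf hfd => hx f (fun i => ?_) hfd⟩
  by_cases hi : i ∈ Set.range e
  · obtain ⟨j, rfl⟩ := hi
    rw [hw' j]
    exact hf j
  · rw [hw0 i hi, pow_zero, Ideal.one_eq_top]
    exact Submodule.mem_top

theorem nf_card [Infinite K] {κ : Type} [Fintype κ] {k : ℕ} (hk : 1 ≤ k)
    (h : Fintype.card κ ≤ k ^ (E + 1)) : Nf K E (fun _ : κ => (1 : ℝ)) ((k : ℝ) ^ E) := by
  obtain ⟨e⟩ := Function.Embedding.nonempty_of_card_le (α := κ) (β := Fin (k ^ (E + 1))) (by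
    rwa [Fintype.card_fin])
  exact (nf_power hk).restrict e

theorem Nf.scale {ι : Type} [Fintype ι] {t : ι → ℝ} {c : ℝ} (h : Nf K E t c) {a : ℝ} (ha : 0 ≤ a) :
    Nf K E (fun i => a * t i) (a * c) := by
  intro w d hd
  have h1 : ∑ i, a * t i * (w i : ℝ) = a * ∑ i, t i * (w i : ℝ) := by
    rw [Finset.mul_sum]
    exact Finset.sum_congr rfl fun i _ => by ring
  rw [h1, mul_assoc] at hd
  exact h w d (lt_of_mul_lt_mul_left hd ha)

theorem eq_zero_of_mult {m d : ℕ} (hm : d < m) {f : MvPolynomial (Fin (E + 1)) K}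
    (hf : f ∈ pt (fun _ : Fin (E + 1) => (0 : K)) ^ m)
    (hfd : ∀ α, coeff α f ≠ 0 → Finsupp.degree α ≤ d) : f = 0 := by
  have h3 := mem_pt_pow_iff.1 hf
  have h4 : shift (fun _ : Fin (E + 1) => (0 : K)) f = f := by
    have : shift (fun _ : Fin (E + 1) => (0 : K)) = AlgHom.id K _ := by
      refine MvPolynomial.algHom_ext fun k => ?_
      rw [shift_X, C_0, add_zero, AlgHom.id_apply]
    rw [this, AlgHom.id_apply]
  rw [h4] at h3
  refine MvPolynomial.ext _ _ fun α => ?_
  by_contra hα
  exact hα (h3 α (lt_of_le_of_lt (hfd α hα) hm))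

/-- Adding points costs at most the sum of their weights. -/
theorem Nf.add {ι : Type} [Fintype ι] {t : ι → ℝ} (ht : ∀ i, 0 ≤ t i) (p : ι → Prop)
    [DecidablePred p] {c : ℝ} (h : Nf K E (fun i : {i // p i} => t i.1) c) :
    Nf K E t (c + ∑ i with ¬ p i, t i) := by
  classical
  intro w d hd
  by_cases hw : ∃ i, d < w i
  · obtain ⟨i, hi⟩ := hw
    exact ⟨fun _ _ => 0, fun f hf hfd => eq_zero_of_mult hi (hf i) hfd⟩
  · push Not at hw
    have h1 : ∑ i, t i * (w i : ℝ) = ∑ i : {i // p i}, t i.1 * (w i.1 : ℝ) +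
        ∑ i with ¬ p i, t i * (w i : ℝ) := by
      rw [← Finset.sum_filter_add_sum_filter_not Finset.univ p (fun i => t i * (w i : ℝ))]
      congr 1
      exact Finset.sum_subtype (Finset.univ.filter p) (fun i => by simp)
        (fun i => t i * (w i : ℝ))
    have h2 : ∑ i with ¬ p i, t i * (w i : ℝ) ≤ (∑ i with ¬ p i, t i) * d := by
      rw [Finset.sum_mul]
      exact Finset.sum_le_sum fun i _ => mul_le_mul_of_nonneg_left (by exact_mod_cast hw i) (ht i)
    rw [h1] at hd
    obtain ⟨x, hx⟩ := h (fun i => w i.1) d (by nlinarith)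
    refine ⟨fun i => if hi : p i then x ⟨i, hi⟩ else 0, fun f hf hfd => hx f (fun i => ?_) hfd⟩
    have h3 := hf i.1
    simp only at h3
    rw [dif_pos i.2] at h3
    exact h3

/-- Merging points. -/
theorem Nf.merge [Infinite K] {ι : Type} [Fintype ι] [DecidableEq ι] {t : ι → ℝ}
    (ht : ∀ i, 0 ≤ t i) (S : Finset ι) {k : ℕ} (hk : 1 ≤ k) (hS : S.card ≤ k ^ (E + 1)) {v : ℝ}
    (hv0 : 0 ≤ v) (hv : ∀ i ∈ S, t i * (k : ℝ) ^ E ≤ v) {c : ℝ}
    (h : Nf K E (fun o : Option {i // i ∉ S} => o.elim v (fun i => t i.1)) c) : Nf K E t c := by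
  classical
  have hk0' : (0 : ℝ) < k := by exact_mod_cast hk
  have hk0 : (0 : ℝ) < (k : ℝ) ^ E := by positivity
  let g : ι → Option {i // i ∉ S} := fun i => if hi : i ∈ S then none else some ⟨i, hi⟩
  have hg1 : ∀ i, i ∈ S → g i = none := fun i hi => dif_pos hi
  have hg2 : ∀ i (hi : i ∉ S), g i = some ⟨i, hi⟩ := fun i hi => dif_neg hi
  let cc : Option {i // i ∉ S} → ℝ := fun o => o.elim ((k : ℝ) ^ E) (fun _ => 1)
  have hmain := Nf.comp (K := K) g (τ := fun o => o.elim v (fun i => t i.1)) (c := c)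
    (fun j => by
      cases j with
      | none => exact hv0
      | some i => exact ht i.1) h (t := fun _ => 1) (cc := cc)
    (fun j => by
      cases j with
      | none => exact hk0
      | some i => exact one_pos)
    (fun j => by
      cases j with
      | none =>
        refine nf_card hk (le_trans ?_ hS)
        rw [Fintype.card_subtype]
        refine Finset.card_le_card fun i hi => ?_
        by_contra hne
        rw [Finset.mem_filter, hg2 i hne] at hi
        exact Option.some_ne_none _ hi.2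
      | some i =>
        have h1 : Nf K E (fun _ : {i' // g i' = some i} => (1 : ℝ)) (((1 : ℕ) : ℝ) ^ E) := by
          refine nf_card le_rfl ?_
          rw [one_pow, Fintype.card_le_one_iff]
          rintro ⟨a, ha⟩ ⟨b, hb⟩
          have ha' : a = i.1 := by
            by_cases h2 : a ∈ S
            · rw [hg1 a h2] at ha
              exact absurd ha.symm (Option.some_ne_none _)
            · rw [hg2 a h2] at ha
              rw [← Option.some.inj ha]
          have hb' : b = i.1 := by
            by_cases h2 : b ∈ S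
            · rw [hg1 b h2] at hb
              exact absurd hb.symm (Option.some_ne_none _)
            · rw [hg2 b h2] at hb
              rw [← Option.some.inj hb]
          exact Subtype.ext (ha'.trans hb'.symm)
        have h3 : cc (some i) = ((1 : ℕ) : ℝ) ^ E := by
          rw [Nat.cast_one, one_pow]
          rfl
        rw [h3]
        exact h1)
  refine hmain.mono (fun i => ?_) le_rfl
  by_cases hi : i ∈ S
  · rw [hg1 i hi]
    show t i ≤ v * (1 / (k : ℝ) ^ E)
    rw [mul_one_div, le_div_iff₀ hk0]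
    exact hv i hi
  · rw [hg2 i hi]
    show t i ≤ t i * (1 / 1)
    simp

end Pool.Agent.H852.ND
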