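import Mathlib
import Pool.Agent.H852.ND.Round

set_option autoImplicit false

/-!
# Merging of points with sizes in a grid, all dimensions
-/

namespace Pool.Agent.H852.ND

open MvPolynomial Pool.Agent.H932R5 Pool.Agent.H519R3.AC

universe u

variable {K : Type u} [Field K] {E : ℕ}

/-- The sizes of the grid. -/
noncomputable def gv (B : ℕ) : Option (ℕ × ℕ) → ℝ
  | none => B
  | some (j, q) => B / (2 ^ j * q)

theorem gv_nonneg (B : ℕ) (l : Option (ℕ × ℕ)) : 0 ≤ gv B l := by
  rcases l with _ | ⟨j, q⟩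
  · exact Nat.cast_nonneg B
  · unfold gv
    positivity

/-- Bounds for the leftovers. -/
noncomputable def bd (E B : ℕ) : ℕ → ℝ
  | 0 => 2 * (B : ℝ) ^ (E + 1)
  | j + 1 => 2 ^ (E + 1) / 2 ^ (j + 1)

theorem sum_bd (E B J : ℕ) :
    ∑ j ∈ Finset.range J, bd E B j ≤ 2 * (B : ℝ) ^ (E + 1) + 2 ^ (E + 1) := by
  rcases J with _ | J
  · simp only [Finset.range_zero, Finset.sum_empty]
    positivity
  · have h : ∑ j ∈ Finset.range (J + 1), bd E B j =
        2 * (B : ℝ) ^ (E + 1) + 2 ^ (E + 1) - 2 ^ (E + 1) / 2 ^ J := by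
      induction J with
      | zero => simp [bd]
      | succ J ih =>
        rw [Finset.sum_range_succ, ih]
        show _ + (2 : ℝ) ^ (E + 1) / (2 : ℝ) ^ (J + 1) = _
        rw [pow_succ (2 : ℝ) J]
        field_simp
        ring
    rw [h]
    have : (0 : ℝ) ≤ 2 ^ (E + 1) / 2 ^ J := by positivity
    linarith

theorem leftover {B : ℕ} (hB : 2 ≤ B) (hE : 1 ≤ E) {ι : Type} [Fintype ι]
    (lab : ι → Option (ℕ × ℕ))
    (hlab : ∀ i j q, lab i = some (j, q) → B ≤ q ∧ q ≤ 2 * B)
    (h1 : ∀ j q, (Finset.univ.filter fun i => lab i = some (j + 1, q)).card ≤ 2 ^ (E + 1))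
    (h2 : ∀ q, B ≤ q → q ≤ 2 * B →
      (Finset.univ.filter fun i => lab i = some (0, q)).card ≤ q ^ (E + 1)) :
    ∑ i with ¬ (lab i = none), gv B (lab i) ^ E ≤
      ((B : ℝ) + 1) * (2 * (B : ℝ) ^ (E + 1) + 2 ^ (E + 1)) := by
  classical
  have hBR : (2 : ℝ) ≤ B := by exact_mod_cast hB
  have hB0 : (0 : ℝ) < B := by linarith
  obtain ⟨J, hJ⟩ : ∃ J, ∀ i j q, lab i = some (j, q) → j < J := by
    refine ⟨Finset.univ.sup (fun i => ((lab i).elim 0 (fun x => x.1))) + 1, fun i j q h => ?_⟩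
    have h3 := Finset.le_sup (f := fun i => ((lab i).elim 0 (fun x => x.1))) (Finset.mem_univ i)
    simp only [h, Option.elim] at h3
    exact Nat.lt_succ_of_le h3
  obtain ⟨P, hP⟩ : ∃ P : Finset (ℕ × ℕ), P = Finset.range J ×ˢ Finset.Icc B (2 * B) := ⟨_, rfl⟩
  have hmaps : ∀ i ∈ Finset.univ.filter (fun i => ¬ (lab i = none)),
      lab i ∈ P.map ⟨some, Option.some_injective _⟩ := by
    intro i hi
    rw [Finset.mem_filter] at hi
    rcases hl : lab i with _ | ⟨j, q⟩
    · exact absurd hl hi.2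
    · rw [Finset.mem_map]
      refine ⟨(j, q), ?_, rfl⟩
      rw [hP, Finset.mem_product, Finset.mem_range, Finset.mem_Icc]
      exact ⟨hJ i j q hl, hlab i j q hl⟩
  rw [← Finset.sum_fiberwise_of_maps_to hmaps, Finset.sum_map]
  have hb : ∀ x ∈ P, ∑ i ∈ Finset.univ.filter (fun i => ¬ (lab i = none)) with
      lab i = (⟨some, Option.some_injective _⟩ : (ℕ × ℕ) ↪ Option (ℕ × ℕ)) x, gv B (lab i) ^ E ≤
      bd E B x.1 := by
    rintro ⟨j, q⟩ hx
    rw [hP, Finset.mem_product, Finset.mem_range, Finset.mem_Icc] at hx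
    obtain ⟨_, hq1, hq2⟩ := hx
    simp only at hq1 hq2
    have hqR : (B : ℝ) ≤ q := by exact_mod_cast hq1
    have hqR2 : (q : ℝ) ≤ 2 * B := by exact_mod_cast hq2
    have hq0 : (0 : ℝ) < q := by linarith
    have e1 : ∑ i ∈ Finset.univ.filter (fun i => ¬ (lab i = none)) with
        lab i = (⟨some, Option.some_injective _⟩ : (ℕ × ℕ) ↪ Option (ℕ × ℕ)) (j, q),
          gv B (lab i) ^ E =
        ((Finset.univ.filter fun i => lab i = some (j, q)).card : ℝ) *
          gv B (some (j, q)) ^ E := by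
      rw [← nsmul_eq_mul, ← Finset.sum_const]
      refine Finset.sum_congr ?_ fun i hi => ?_
      · ext i
        simp only [Finset.mem_filter, Finset.mem_univ, true_and]
        constructor
        · rintro ⟨_, h⟩
          exact h
        · intro h
          exact ⟨by rw [h]; exact Option.some_ne_none _, h⟩
      · rw [(Finset.mem_filter.1 hi).2]
    rw [e1]
    rcases j with _ | j
    · have h3 : ((Finset.univ.filter fun i => lab i = some (0, q)).card : ℝ) ≤
          (q : ℝ) ^ (E + 1) := by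
        exact_mod_cast h2 q hq1 hq2
      show _ * ((B : ℝ) / (2 ^ 0 * q)) ^ E ≤ 2 * (B : ℝ) ^ (E + 1)
      have h4 : (0 : ℝ) ≤ ((B : ℝ) / (2 ^ 0 * q)) ^ E := by positivity
      refine (mul_le_mul_of_nonneg_right h3 h4).trans ?_
      have h5 : (q : ℝ) ^ (E + 1) * ((B : ℝ) / (2 ^ 0 * q)) ^ E = q * (B : ℝ) ^ E := by
        rw [pow_zero, one_mul, div_pow, pow_succ]
        field_simp
      rw [h5, pow_succ]
      have h6 : (0 : ℝ) < (B : ℝ) ^ E := by positivity
      nlinarith
    · have h3 : ((Finset.univ.filter fun i => lab i = some (j + 1, q)).card : ℝ) ≤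
          2 ^ (E + 1) := by
        exact_mod_cast h1 j q
      show _ * ((B : ℝ) / (2 ^ (j + 1) * q)) ^ E ≤ 2 ^ (E + 1) / 2 ^ (j + 1)
      have h4 : (0 : ℝ) ≤ ((B : ℝ) / (2 ^ (j + 1) * q)) ^ E := by positivity
      refine (mul_le_mul_of_nonneg_right h3 h4).trans ?_
      rw [div_eq_mul_inv]
      refine mul_le_mul_of_nonneg_left ?_ (by positivity)
      have h7 : (B : ℝ) / (2 ^ (j + 1) * q) ≤ (2 ^ (j + 1))⁻¹ := by
        rw [div_le_iff₀ (by positivity), ← mul_assoc, inv_mul_cancel₀ (by positivity), one_mul]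
        exact hqR
      have h8 : ((2 : ℝ) ^ (j + 1))⁻¹ ≤ 1 := by
        rw [inv_le_one_iff₀]
        right
        exact one_le_pow₀ (by norm_num)
      calc ((B : ℝ) / (2 ^ (j + 1) * q)) ^ E ≤ (((2 : ℝ) ^ (j + 1))⁻¹) ^ E :=
            pow_le_pow_left₀ (by positivity) h7 E
        _ ≤ (((2 : ℝ) ^ (j + 1))⁻¹) ^ 1 := pow_le_pow_of_le_one (by positivity) h8 hE
        _ = _ := pow_one _
  refine (Finset.sum_le_sum hb).trans ?_
  rw [hP, Finset.sum_product]
  simp only [Finset.sum_const, Nat.card_Icc, nsmul_eq_mul]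
  rw [← Finset.mul_sum]
  have h7 : (((2 * B + 1 - B : ℕ)) : ℝ) = (B : ℝ) + 1 := by
    have : 2 * B + 1 - B = B + 1 := by omega
    rw [this]
    push_cast
    ring
  rw [h7]
  exact mul_le_mul_of_nonneg_left (sum_bd E B J) (by positivity)

theorem core [Infinite K] {B : ℕ} (hB : 2 ≤ B) (hE : 1 ≤ E) {X : ℝ} (hX : 0 ≤ X) (N : ℕ) :
    ∀ (ι : Type) [Fintype ι] (lab : ι → Option (ℕ × ℕ)),
    (∀ i j q, lab i = some (j, q) → B ≤ q ∧ q ≤ 2 * B) → Fintype.card ι = N →
    ∑ i, gv B (lab i) ^ (E + 1) ≤ X ^ (E + 1) →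
    Nf K E (fun i => gv B (lab i) ^ E) ((X + B) ^ E +
      ((B : ℝ) + 1) * (2 * (B : ℝ) ^ (E + 1) + 2 ^ (E + 1))) := by
  classical
  have hBR : (2 : ℝ) ≤ B := by exact_mod_cast hB
  have hB0 : (0 : ℝ) < B := by linarith
  induction N using Nat.strong_induction_on with
  | _ N ih =>
    intro ι _ lab hlab hN hXs
    have key : ∀ (S : Finset ι) (k : ℕ) (v : Option (ℕ × ℕ)), 2 ≤ k → S.card = k ^ (E + 1) →
        (∀ j q, v = some (j, q) → B ≤ q ∧ q ≤ 2 * B) →
        (∀ i ∈ S, gv B (lab i) * k = gv B v) →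
        Nf K E (fun i => gv B (lab i) ^ E) ((X + B) ^ E +
          ((B : ℝ) + 1) * (2 * (B : ℝ) ^ (E + 1) + 2 ^ (E + 1))) := by
      intro S k v hk hS hv hSv
      have h4 : 2 ≤ k ^ (E + 1) := hk.trans (Nat.le_self_pow (by omega) k)
      have hkR : (2 : ℝ) ≤ k := by exact_mod_cast hk
      obtain ⟨lab', hlab'⟩ : ∃ lab' : Option {i // i ∉ S} → Option (ℕ × ℕ),
          lab' = fun o => o.elim v (fun i => lab i.1) := ⟨_, rfl⟩
      have hcomp : (Finset.univ.filter fun i => i ∉ S) = Sᶜ := by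
        ext i
        simp
      have hcard : Fintype.card (Option {i // i ∉ S}) < N := by
        rw [Fintype.card_option, Fintype.card_subtype, hcomp, Finset.card_compl, hS, hN]
        have h5 := Finset.card_le_univ S
        rw [hS, hN] at h5
        omega
      have hsum : ∑ o, gv B (lab' o) ^ (E + 1) = ∑ i, gv B (lab i) ^ (E + 1) := by
        rw [Fintype.sum_option, ← Finset.sum_add_sum_compl S]
        congr 1
        · have h5 : ∀ i ∈ S, gv B (lab i) ^ (E + 1) =
              gv B v ^ (E + 1) / (k : ℝ) ^ (E + 1) := by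
            intro i hi
            rw [← hSv i hi, mul_pow]
            field_simp
          rw [Finset.sum_congr rfl h5, Finset.sum_const, hS, nsmul_eq_mul, hlab']
          push_cast
          have h6 : (k : ℝ) ≠ 0 := by positivity
          simp only [Option.elim]
          field_simp
        · rw [hlab']
          exact (Finset.sum_subtype Sᶜ (fun i => by simp) (fun i => gv B (lab i) ^ (E + 1))).symm
      have h := ih _ hcard (Option {i // i ∉ S}) lab' (by
        intro o j q ho
        rw [hlab'] at ho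
        cases o with
        | none => exact hv j q ho
        | some i => exact hlab i.1 j q ho) rfl (hsum.le.trans hXs)
      refine Nf.merge (fun i => pow_nonneg (gv_nonneg B _) E) S (k := k) (by omega) hS.le
        (pow_nonneg (gv_nonneg B v) E)
        (fun i hi => by rw [← mul_pow, hSv i hi]) ?_
      have h7 : (fun o : Option {i // i ∉ S} =>
          o.elim (gv B v ^ E) (fun i => gv B (lab i.1) ^ E)) = fun o => gv B (lab' o) ^ E := by
        funext o
        rw [hlab']
        cases o <;> rfl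
      rw [h7]
      exact h
    by_cases h1 : ∃ j q, 2 ^ (E + 1) ≤ (Finset.univ.filter fun i => lab i = some (j + 1, q)).card
    · obtain ⟨j, q, h1⟩ := h1
      obtain ⟨S, hS, hSc⟩ := Finset.exists_subset_card_eq h1
      have hSl : ∀ i ∈ S, lab i = some (j + 1, q) := fun i hi => (Finset.mem_filter.1 (hS hi)).2
      obtain ⟨i0, hi0⟩ : S.Nonempty := Finset.card_pos.1 (by rw [hSc]; positivity)
      have hq := hlab i0 _ _ (hSl i0 hi0)
      have hq0 : (q : ℝ) ≠ 0 := by
        have : 0 < q := by omega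
        positivity
      refine key S 2 (some (j, q)) le_rfl hSc (fun j' q' h => ?_) (fun i hi => ?_)
      · have h8 := Option.some.inj h
        rw [Prod.mk.injEq] at h8
        rw [← h8.2]
        exact hq
      · rw [hSl i hi]
        show (B : ℝ) / (2 ^ (j + 1) * q) * ((2 : ℕ) : ℝ) = B / (2 ^ j * q)
        rw [pow_succ]
        push_cast
        field_simp
    by_cases h2 : ∃ q, B ≤ q ∧ q ≤ 2 * B ∧
        q ^ (E + 1) ≤ (Finset.univ.filter fun i => lab i = some (0, q)).card
    · obtain ⟨q, hq1, hq2, h2⟩ := h2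
      obtain ⟨S, hS, hSc⟩ := Finset.exists_subset_card_eq h2
      have hSl : ∀ i ∈ S, lab i = some (0, q) := fun i hi => (Finset.mem_filter.1 (hS hi)).2
      have hq0 : (q : ℝ) ≠ 0 := by
        have : 0 < q := by omega
        positivity
      refine key S q none (by omega) hSc (fun j' q' h => ?_) (fun i hi => ?_)
      · exact absurd h.symm (Option.some_ne_none _)
      · rw [hSl i hi]
        show (B : ℝ) / (2 ^ 0 * q) * q = B
        field_simp
    push Not at h1 h2
    obtain ⟨s, hs⟩ : ∃ s, s = Fintype.card {i // lab i = none} := ⟨_, rfl⟩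
    obtain ⟨k, hk⟩ : ∃ k, k = ⌊X / B⌋₊ + 1 := ⟨_, rfl⟩
    have hkX : X / B ≤ k := by
      rw [hk]
      push_cast
      exact (Nat.lt_floor_add_one _).le
    have hkX2 : (B : ℝ) * k ≤ X + B := by
      rw [hk]
      push_cast
      have h3 : (⌊X / B⌋₊ : ℝ) ≤ X / B := Nat.floor_le (by positivity)
      rw [le_div_iff₀ hB0] at h3
      nlinarith
    have h8 : ∑ i with lab i = none, gv B (lab i) ^ (E + 1) = s * (B : ℝ) ^ (E + 1) := by
      rw [hs, Fintype.card_subtype, ← nsmul_eq_mul, ← Finset.sum_const]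
      refine Finset.sum_congr rfl fun i hi => ?_
      rw [(Finset.mem_filter.1 hi).2]
      rfl
    have h9 : (s : ℝ) * (B : ℝ) ^ (E + 1) ≤ X ^ (E + 1) := by
      rw [← h8]
      exact (Finset.sum_le_sum_of_subset_of_nonneg (Finset.filter_subset _ _)
        (fun i _ _ => pow_nonneg (gv_nonneg B _) _)).trans hXs
    have hk2 : s ≤ k ^ (E + 1) := by
      have h10 : (s : ℝ) ≤ (X / B) ^ (E + 1) := by
        rw [div_pow, le_div_iff₀ (by positivity)]
        exact h9
      have h11 : (s : ℝ) ≤ (k : ℝ) ^ (E + 1) :=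
        h10.trans (pow_le_pow_left₀ (by positivity) hkX _)
      exact_mod_cast h11
    have h3 : Nf K E (fun i : {i // lab i = none} => gv B (lab i.1) ^ E)
        ((B : ℝ) ^ E * (k : ℝ) ^ E) := by
      have h4 := (nf_card (K := K) (E := E) (κ := {i // lab i = none}) (k := k) (by omega)
        (by rw [← hs]; exact hk2)).scale (a := (B : ℝ) ^ E) (by positivity)
      refine h4.mono (fun i => ?_) le_rfl
      rw [i.2, mul_one]
      exact le_rfl
    have h5 := Nf.add (t := fun i => gv B (lab i) ^ E) (fun i => pow_nonneg (gv_nonneg B _) E)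
      (fun i => lab i = none) h3
    refine h5.mono (fun i => le_rfl) ?_
    have h6 := leftover hB hE lab hlab (fun j q => (h1 j q).le) (fun q hq1 hq2 => (h2 q hq1 hq2).le)
    have h7 : (B : ℝ) ^ E * (k : ℝ) ^ E ≤ (X + B) ^ E := by
      rw [← mul_pow]
      exact pow_le_pow_left₀ (by positivity) hkX2 E
    linarith

end Pool.Agent.H852.ND
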