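import Mathlib
import Pool.Agent.H852.ND.Core

set_option autoImplicit false

/-!
# All sizes, all dimensions
-/

namespace Pool.Agent.H852.ND

open MvPolynomial Pool.Agent.H932R5 Pool.Agent.H519R3.AC

universe u

variable {K : Type u} [Field K] {E : ℕ}

theorem exists_label {B : ℕ} (hB : 2 ≤ B) {t : ℝ} (h0 : 0 < t) (h1 : t ≤ 1) :
    ∃ j q : ℕ, B ≤ q ∧ q ≤ 2 * B ∧ t ≤ gv B (some (j, q)) ∧
      gv B (some (j, q)) ≤ (1 + 1 / (B : ℝ)) * t := by
  have hBR : (2 : ℝ) ≤ B := by exact_mod_cast hB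
  have hB0 : (0 : ℝ) < B := by linarith
  obtain ⟨j, hj1, hj2⟩ := exists_nat_pow_near_of_lt_one h0 h1 (y := (1 / 2 : ℝ)) (by norm_num)
    (by norm_num)
  obtain ⟨p, hp⟩ : ∃ p : ℝ, p = 2 ^ j := ⟨_, rfl⟩
  have hp0 : 0 < p := by rw [hp]; positivity
  obtain ⟨v, hv⟩ : ∃ v : ℝ, v = p * t := ⟨_, rfl⟩
  have hv0 : 0 < v := by rw [hv]; positivity
  have hv1 : v ≤ 1 := by
    rw [hv, hp]
    calc (2 : ℝ) ^ j * t ≤ 2 ^ j * (1 / 2) ^ j := mul_le_mul_of_nonneg_left hj2 (by positivity)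
      _ = 1 := by rw [← mul_pow]; norm_num
  have hv2 : 1 < 2 * v := by
    rw [hv, hp]
    have h2 : (2 : ℝ) ^ (j + 1) * (1 / 2) ^ (j + 1) < 2 ^ (j + 1) * t :=
      mul_lt_mul_of_pos_left hj1 (by positivity)
    rw [← mul_pow] at h2
    have h3 : ((2 : ℝ) * (1 / 2)) ^ (j + 1) = 1 := by norm_num
    rw [h3, pow_succ] at h2
    linarith
  obtain ⟨q, hq⟩ : ∃ q : ℕ, q = ⌊(B : ℝ) / v⌋₊ := ⟨_, rfl⟩
  have hq1 : (q : ℝ) ≤ B / v := by
    rw [hq]
    exact Nat.floor_le (by positivity)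
  have hq2 : (B : ℝ) / v < q + 1 := by
    rw [hq]
    exact Nat.lt_floor_add_one _
  have hBq : B ≤ q := by
    rw [hq]
    refine Nat.le_floor ?_
    rw [le_div_iff₀ hv0]
    nlinarith
  have hqB : q ≤ 2 * B := by
    have h2 : (B : ℝ) / v < 2 * B := by
      rw [div_lt_iff₀ hv0]
      nlinarith
    have h3 : (q : ℝ) < ((2 * B : ℕ) : ℝ) := by
      push_cast
      linarith
    exact_mod_cast h3.le
  have hqR : (B : ℝ) ≤ q := by exact_mod_cast hBq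
  have hq0 : (0 : ℝ) < q := by linarith
  rw [le_div_iff₀ hv0] at hq1
  rw [div_lt_iff₀ hv0] at hq2
  refine ⟨j, q, hBq, hqB, ?_, ?_⟩
  · show t ≤ (B : ℝ) / (2 ^ j * q)
    rw [← hp, le_div_iff₀ (by positivity)]
    calc t * (p * q) = q * v := by rw [hv]; ring
      _ ≤ B := hq1
  · show (B : ℝ) / (2 ^ j * q) ≤ _
    rw [← hp, div_le_iff₀ (by positivity)]
    have h2 : (1 + 1 / (B : ℝ)) * t * (p * q) = (1 + 1 / (B : ℝ)) * q * v := by rw [hv]; ring
    rw [h2]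
    refine hq2.le.trans (mul_le_mul_of_nonneg_right ?_ hv0.le)
    have h3 : 1 ≤ 1 / (B : ℝ) * q := by
      rw [one_div, ← div_eq_inv_mul, le_div_iff₀ hB0]
      linarith
    linarith

theorem round_pos [Infinite K] {B : ℕ} (hB : 2 ≤ B) (hE : 1 ≤ E) {ι : Type} [Fintype ι]
    {s : ι → ℝ} (h0 : ∀ i, 0 < s i) (h1 : ∀ i, s i ≤ 1) {X : ℝ} (hX0 : 0 ≤ X)
    (hX : ∑ i, s i ^ (E + 1) ≤ X ^ (E + 1)) :
    Nf K E (fun i => s i ^ E) (((1 + 1 / (B : ℝ)) * X + B) ^ E + 6 * (B : ℝ) ^ (E + 2)) := by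
  have hBR : (2 : ℝ) ≤ B := by exact_mod_cast hB
  choose j q hq1 hq2 hl hu using fun i => exists_label hB (h0 i) (h1 i)
  have h := core (K := K) hB hE (X := (1 + 1 / (B : ℝ)) * X) (by positivity) (Fintype.card ι) ι
    (fun i => some (j i, q i)) (fun i j' q' h => by
    have h8 := Option.some.inj h
    rw [Prod.mk.injEq] at h8
    rw [← h8.2]
    exact ⟨hq1 i, hq2 i⟩) rfl (by
      rw [mul_pow]
      refine le_trans ?_ (mul_le_mul_of_nonneg_left hX (by positivity))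
      rw [Finset.mul_sum]
      refine Finset.sum_le_sum fun i _ => ?_
      rw [← mul_pow]
      exact pow_le_pow_left₀ (gv_nonneg B _) (hu i) _)
  refine h.mono (fun i => pow_le_pow_left₀ (h0 i).le (hl i) E) ?_
  have h3 : (2 : ℝ) ^ (E + 1) ≤ (B : ℝ) ^ (E + 1) := pow_le_pow_left₀ (by norm_num) hBR _
  have h4 : (0 : ℝ) < (B : ℝ) ^ (E + 1) := by positivity
  have h5 : ((B : ℝ) + 1) * (2 * (B : ℝ) ^ (E + 1) + 2 ^ (E + 1)) ≤ 6 * (B : ℝ) ^ (E + 2) := by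
    calc ((B : ℝ) + 1) * (2 * (B : ℝ) ^ (E + 1) + 2 ^ (E + 1)) ≤
        (2 * B) * (3 * (B : ℝ) ^ (E + 1)) := by
          refine mul_le_mul (by linarith) (by linarith) (by positivity) (by positivity)
      _ = 6 * (B : ℝ) ^ (E + 2) := by ring
  linarith

/-- **The weighted inequality**, for all sizes, with constants independent of the number of
points. -/
theorem round_nf [Infinite K] {B : ℕ} (hB : 2 ≤ B) (hE : 1 ≤ E) {ι : Type} [Fintype ι]
    {s : ι → ℝ} {S : ℝ} (hS0 : 0 ≤ S) (h0 : ∀ i, 0 ≤ s i) (h1 : ∀ i, s i ≤ S) {X : ℝ}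
    (hX0 : 0 ≤ X) (hX : ∑ i, s i ^ (E + 1) ≤ X ^ (E + 1)) :
    Nf K E (fun i => s i ^ E)
      (((1 + 1 / (B : ℝ)) * X + B * S) ^ E + 6 * (B : ℝ) ^ (E + 2) * S ^ E) := by
  classical
  have hBR : (2 : ℝ) ≤ B := by exact_mod_cast hB
  rcases hS0.eq_or_lt with hS | hS
  · intro w d hd
    exfalso
    have h2 : ∑ i, s i ^ E * (w i : ℝ) = 0 := Finset.sum_eq_zero fun i _ => by
      have : s i = 0 := le_antisymm ((h1 i).trans hS.ge) (h0 i)
      rw [this, zero_pow (by omega), zero_mul]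
    rw [h2] at hd
    have h3 : 0 ≤ (((1 + 1 / (B : ℝ)) * X + B * S) ^ E + 6 * (B : ℝ) ^ (E + 2) * S ^ E) * d := by
      positivity
    linarith
  · have h2 := (round_pos (K := K) hB hE (s := fun i : {i // 0 < s i} => s i.1 / S)
      (fun i => div_pos i.2 hS) (fun i => (div_le_one hS).2 (h1 i.1)) (X := X / S)
      (by positivity) (by
        have h5 : ∑ i : {i // 0 < s i}, (s i.1 / S) ^ (E + 1) =
            (∑ i with 0 < s i, s i ^ (E + 1)) / S ^ (E + 1) := by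
          rw [Finset.sum_subtype (p := fun i => 0 < s i) (Finset.univ.filter fun i => 0 < s i)
            (fun i => by simp) (fun i => s i ^ (E + 1)), Finset.sum_div]
          exact Finset.sum_congr rfl fun i _ => div_pow _ _ _
        rw [h5, div_pow]
        refine div_le_div_of_nonneg_right ?_ (by positivity)
        exact (Finset.sum_le_sum_of_subset_of_nonneg (Finset.filter_subset _ _)
          (fun i _ _ => pow_nonneg (h0 i) _)).trans hX)).scale (a := S ^ E) (by positivity)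
    have h3 : Nf K E (fun i : {i // 0 < s i} => s i.1 ^ E)
        (((1 + 1 / (B : ℝ)) * X + B * S) ^ E + 6 * (B : ℝ) ^ (E + 2) * S ^ E) := by
      refine h2.mono (fun i => ?_) (le_of_eq ?_)
      · rw [← mul_pow, mul_div_cancel₀ _ hS.ne']
      · rw [mul_add, ← mul_pow]
        have e1 : S * ((1 + 1 / (B : ℝ)) * (X / S) + B) = (1 + 1 / (B : ℝ)) * X + B * S := by
          field_simp
        rw [e1]
        ring
    have h4 := Nf.add (fun i => pow_nonneg (h0 i) E) (fun i => 0 < s i) h3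
    refine h4.mono (fun i => le_rfl) ?_
    have h5 : ∑ i with ¬ 0 < s i, s i ^ E ≤ 0 := Finset.sum_nonpos fun i hi => by
      have h6 := (Finset.mem_filter.1 hi).2
      have h7 : s i = 0 := le_antisymm (not_lt.1 h6) (h0 i)
      rw [h7, zero_pow (by omega)]
    linarith

/-- A function of one variable. -/
noncomputable def cst (E B : ℕ) (σ : ℝ) : ℝ :=
  (1 + 1 / (B : ℝ) + B * σ) ^ E + 6 * (B : ℝ) ^ (E + 2) * σ ^ E

/-- **Emptiness for all multiplicities.** -/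
theorem round_empty [Infinite K] {B : ℕ} (hB : 2 ≤ B) (hE : 1 ≤ E) {n : ℕ} {m : Fin n → ℕ}
    {d : ℕ} {σ : ℝ} (hσ : 0 ≤ σ) (hm : ∀ i, (m i : ℝ) ≤ σ * d)
    (h : (cst E B σ * d) ^ (E + 1) < ∑ i, (m i : ℝ) ^ (E + 1)) :
    ∃ x : Fin n → Fin (E + 1) → K, EmptyAt m x d := by
  have hBR : (2 : ℝ) ≤ B := by exact_mod_cast hB
  have hc1 : 1 ≤ cst E B σ := by
    unfold cst
    have h1 : 1 ≤ (1 + 1 / (B : ℝ) + B * σ) ^ E := one_le_pow₀ (by
      have : 0 ≤ 1 / (B : ℝ) + B * σ := by positivity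
      linarith)
    have h2 : 0 ≤ 6 * (B : ℝ) ^ (E + 2) * σ ^ E := by positivity
    linarith
  obtain ⟨X, hX⟩ : ∃ X : ℝ, X = (∑ i, (m i : ℝ) ^ (E + 1)) ^ ((1 : ℝ) / ((E + 1 : ℕ) : ℝ)) :=
    ⟨_, rfl⟩
  have hM0 : 0 ≤ ∑ i, (m i : ℝ) ^ (E + 1) := Finset.sum_nonneg fun i _ => by positivity
  have hX0 : 0 ≤ X := by rw [hX]; positivity
  have hXE : X ^ (E + 1) = ∑ i, (m i : ℝ) ^ (E + 1) := by
    rw [hX, one_div]
    exact Real.rpow_inv_natCast_pow hM0 (Nat.succ_ne_zero E)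
  have hXd : cst E B σ * d < X := by
    rw [← hXE] at h
    exact lt_of_pow_lt_pow_left₀ (E + 1) hX0 h
  have hdX : (d : ℝ) ≤ X := by
    have hd0 : (0 : ℝ) ≤ d := Nat.cast_nonneg d
    nlinarith
  have hXpos : 0 < X := lt_of_le_of_lt (by positivity) hXd
  have hNf := round_nf (K := K) (E := E) hB hE (s := fun i => (m i : ℝ)) (S := σ * d)
    (by positivity) (fun i => Nat.cast_nonneg _) hm hX0 hXE.ge
  obtain ⟨x, hx⟩ := hNf m d (by
    have e1 : ∑ i, (m i : ℝ) ^ E * (m i : ℝ) = X ^ (E + 1) := by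
      rw [hXE]
      exact Finset.sum_congr rfl fun i _ => (pow_succ _ _).symm
    rw [e1]
    have h1 : ((1 + 1 / (B : ℝ)) * X + B * (σ * d)) ^ E ≤ ((1 + 1 / (B : ℝ) + B * σ) * X) ^ E := by
      refine pow_le_pow_left₀ (by positivity) ?_ E
      have : (B : ℝ) * σ * d ≤ B * σ * X := mul_le_mul_of_nonneg_left hdX (by positivity)
      nlinarith
    have h2 : 6 * (B : ℝ) ^ (E + 2) * (σ * d) ^ E ≤ 6 * (B : ℝ) ^ (E + 2) * (σ * X) ^ E := by
      refine mul_le_mul_of_nonneg_left (pow_le_pow_left₀ (by positivity) ?_ E) (by positivity)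
      exact mul_le_mul_of_nonneg_left hdX hσ
    have h3 : ((1 + 1 / (B : ℝ)) * X + B * (σ * d)) ^ E + 6 * (B : ℝ) ^ (E + 2) * (σ * d) ^ E ≤
        cst E B σ * X ^ E := by
      refine (add_le_add h1 h2).trans (le_of_eq ?_)
      unfold cst
      rw [mul_pow, mul_pow]
      ring
    calc (((1 + 1 / (B : ℝ)) * X + B * (σ * d)) ^ E + 6 * (B : ℝ) ^ (E + 2) * (σ * d) ^ E) * d ≤
        cst E B σ * X ^ E * d := mul_le_mul_of_nonneg_right h3 (Nat.cast_nonneg d)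
      _ = X ^ E * (cst E B σ * d) := by ring
      _ < X ^ E * X := mul_lt_mul_of_pos_left hXd (by positivity)
      _ = X ^ (E + 1) := (pow_succ _ _).symm)
  exact ⟨x, emp_iff.1 hx⟩

/-- The constant tends to `1`. -/
theorem exists_cst (E : ℕ) (hE : 1 ≤ E) {ε : ℝ} (hε : 0 < ε) :
    ∃ B : ℕ, 2 ≤ B ∧ ∃ σ : ℝ, 0 < σ ∧ cst E B σ ^ (E + 1) ≤ 1 + ε := by
  have hlim : Filter.Tendsto (fun B : ℕ => ((1 + 1 / (B : ℝ) + 1 / (B : ℝ)) ^ E +
      6 * (1 / (B : ℝ))) ^ (E + 1)) Filter.atTop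
      (nhds (((1 + 0 + 0) ^ E + 6 * 0) ^ (E + 1))) := by
    have h1 : Filter.Tendsto (fun B : ℕ => 1 / (B : ℝ)) Filter.atTop (nhds 0) :=
      tendsto_one_div_atTop_nhds_zero_nat
    exact ((((tendsto_const_nhds.add h1).add h1).pow E).add (h1.const_mul 6)).pow (E + 1)
  have h2 : ((1 + 0 + 0 : ℝ) ^ E + 6 * 0) ^ (E + 1) < 1 + ε := by
    simp only [add_zero, one_pow, mul_zero]
    linarith
  have h3 := (hlim.eventually (gt_mem_nhds h2)).and (Filter.eventually_ge_atTop 2)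
  obtain ⟨B, hB1, hB2⟩ := h3.exists
  have hBR : (2 : ℝ) ≤ B := by exact_mod_cast hB2
  have hB0 : (0 : ℝ) < B := by linarith
  refine ⟨B, hB2, 1 / (B : ℝ) ^ (E + 3), by positivity, ?_⟩
  refine le_trans (pow_le_pow_left₀ (by unfold cst; positivity) ?_ (E + 1)) hB1.le
  unfold cst
  have hone : (1 : ℝ) ≤ B := by linarith
  have h4 : (B : ℝ) * (1 / (B : ℝ) ^ (E + 3)) ≤ 1 / (B : ℝ) := by
    rw [mul_one_div, div_le_div_iff₀ (by positivity) hB0, one_mul]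
    calc (B : ℝ) * B = (B : ℝ) ^ 2 := (sq _).symm
      _ ≤ (B : ℝ) ^ (E + 3) := pow_le_pow_right₀ hone (by omega)
  have h5 : (B : ℝ) ^ (E + 2) * (1 / (B : ℝ) ^ (E + 3)) ^ E ≤ 1 / (B : ℝ) := by
    have h6 : (1 / (B : ℝ) ^ (E + 3)) ^ E ≤ (1 / (B : ℝ) ^ (E + 3)) ^ 1 := by
      refine pow_le_pow_of_le_one (by positivity) ?_ hE
      rw [div_le_one (by positivity)]
      exact one_le_pow₀ hone
    rw [pow_one] at h6
    refine (mul_le_mul_of_nonneg_left h6 (by positivity)).trans (le_of_eq ?_)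
    rw [pow_succ (B : ℝ) (E + 2)]
    field_simp
  have h6 : (1 + 1 / (B : ℝ) + (B : ℝ) * (1 / (B : ℝ) ^ (E + 3))) ^ E ≤
      (1 + 1 / (B : ℝ) + 1 / (B : ℝ)) ^ E := pow_le_pow_left₀ (by positivity) (by linarith) E
  have h7 : 6 * (B : ℝ) ^ (E + 2) * (1 / (B : ℝ) ^ (E + 3)) ^ E ≤ 6 * (1 / (B : ℝ)) := by
    rw [mul_assoc]
    exact mul_le_mul_of_nonneg_left h5 (by norm_num)
  linarith

end Pool.Agent.H852.ND
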