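import Mathlib
import Pool.Agent.H852.ND.Round

set_option autoImplicit false

/-!
# Independent conditions, by exact families
-/

namespace Pool.Agent.H852.ND

open MvPolynomial Pool.Agent.H932R5 Pool.Agent.H519R3.AC

universe u

variable {K : Type u} [Field K] {E : ℕ}

/-- No nonzero polynomial of degree less than `A` vanishes to order `w i` at the `x i`. -/
def EmpL {ι : Type} (w : ι → ℕ) (x : ι → Fin (E + 1) → K) (A : ℕ) : Prop :=
  ∀ f : MvPolynomial (Fin (E + 1)) K, (∀ i, f ∈ pt (x i) ^ w i) →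
    (∀ α, coeff α f ≠ 0 → Finsupp.degree α < A) → f = 0

/-- The multiplicities `w` can be completed by simple points to an exact family in degree less
than `A`. -/
def SW (K : Type u) [Field K] (E : ℕ) {ι : Type} [Fintype ι] (w : ι → ℕ) (A : ℕ) : Prop :=
  ∃ (ν : Type) (_ : Fintype ν) (x : ι ⊕ ν → Fin (E + 1) → K),
    ∑ i, (w i + E).choose (E + 1) + Fintype.card ν = (A + E).choose (E + 1) ∧
      EmpL (Sum.elim w (fun _ => 1)) x A

theorem SW.equiv {ι κ : Type} [Fintype ι] [Fintype κ] (e : ι ≃ κ) {w : ι → ℕ} {A : ℕ}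
    (h : SW K E w A) : SW K E (fun j => w (e.symm j)) A := by
  obtain ⟨ν, _, x, hc, hx⟩ := h
  refine ⟨ν, inferInstance, Sum.elim (fun j => x (Sum.inl (e.symm j))) (fun a => x (Sum.inr a)),
    ?_, fun f hf hd => hx f (fun i => ?_) hd⟩
  · rw [← hc, e.symm.sum_comp (fun i => (w i + E).choose (E + 1))]
  · cases i with
    | inl i =>
      have h1 := hf (Sum.inl (e i))
      simpa using h1
    | inr a => exact hf (Sum.inr a)

theorem SW.single {ι : Type} [Fintype ι] (i0 : ι) (h : ∀ i, i = i0) (w : ι → ℕ) :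
    SW K E w (w i0) := by
  refine ⟨Fin 0, inferInstance, fun _ _ => 0, ?_, fun f hf hd => ?_⟩
  · rw [Fintype.sum_eq_single i0 (fun i hi => absurd (h i) hi), Fintype.card_fin, add_zero]
  · rcases Nat.eq_zero_or_pos (w i0) with h0 | h0
    · refine MvPolynomial.ext _ _ fun α => ?_
      by_contra hα
      have := hd α hα
      omega
    · exact eq_zero_of_mult (m := w i0) (d := w i0 - 1) (by omega) (hf (Sum.inl i0)) (fun α hα => by
        have := hd α hα
        omega)

theorem SW.zero {ι : Type} [Fintype ι] {w : ι → ℕ} (h : ∀ i, w i = 0) : SW K E w 0 := by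
  refine ⟨Fin 0, inferInstance, fun _ _ => 0, ?_, fun f _ hd => ?_⟩
  · rw [Fintype.card_fin, add_zero, zero_add, Nat.choose_succ_self]
    refine Finset.sum_eq_zero fun i _ => ?_
    rw [h i, zero_add, Nat.choose_succ_self]
  · refine MvPolynomial.ext _ _ fun α => ?_
    by_contra hα
    have := hd α hα
    omega

/-- **Composition.** -/
theorem SW.comp [Infinite K] {ι κ : Type} [Fintype ι] [Fintype κ] [DecidableEq κ] (g : ι → κ)
    {w : ι → ℕ} {A : κ → ℕ} {d : ℕ} (h : SW K E A (d + 1))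
    (hg : ∀ j, SW K E (fun i : {i // g i = j} => w i.1) (A j)) : SW K E w (d + 1) := by
  classical
  obtain ⟨ν0, _, x0, hc0, h0⟩ := h
  choose ν iν x hc hx using hg
  let g' : ι ⊕ ((Σ j, ν j) ⊕ ν0) → κ ⊕ ν0 :=
    Sum.elim (fun i => Sum.inl (g i)) (Sum.elim (fun p => Sum.inl p.1) (fun a => Sum.inr a))
  obtain ⟨y, hy⟩ := emp_collide (K := K) (E := E) g'
    (w := Sum.elim w (fun _ => 1)) (A := Sum.elim A (fun _ => 1)) (Q := x0) (d := d)
    (fun f hf hd => h0 f hf (fun α hα => Nat.lt_succ_of_le (hd α hα)))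
    (R := Sum.elim (fun i => x (g i) (Sum.inl ⟨i, rfl⟩))
      (Sum.elim (fun p => x p.1 (Sum.inr p.2)) (fun _ _ => 0))) (by
    intro j f hf hdeg
    cases j with
    | inl j =>
      refine hx j f (fun i => ?_) hdeg
      cases i with
      | inl i =>
        obtain ⟨i, hi⟩ := i
        subst hi
        exact hf (Sum.inl i) rfl
      | inr a => exact hf (Sum.inr (Sum.inl ⟨j, a⟩)) rfl
    | inr a =>
      exact eq_zero_of_mult (m := 1) (d := 0) one_pos (hf (Sum.inr (Sum.inr a)) rfl)
        (fun α hα => Nat.le_of_lt_succ (hdeg α hα)))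
  refine ⟨(Σ j, ν j) ⊕ ν0, inferInstance, y, ?_, fun f hf hd => hy f hf (fun α hα =>
    Nat.le_of_lt_succ (hd α hα))⟩
  have h1 : ∑ i, (w i + E).choose (E + 1) =
      ∑ j, ∑ i : {i // g i = j}, (w i.1 + E).choose (E + 1) := by
    rw [← Finset.sum_fiberwise Finset.univ g]
    refine Finset.sum_congr rfl fun j _ => ?_
    exact Finset.sum_subtype (Finset.univ.filter fun i => g i = j) (fun i => by simp)
      (fun i => (w i + E).choose (E + 1))
  rw [Fintype.card_sum, Fintype.card_sigma, h1, ← add_assoc, ← Finset.sum_add_distrib, ← hc0]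
  congr 1
  exact Finset.sum_congr rfl fun j _ => hc j

/-- Finitely many general points cut a finite-dimensional space down to zero. -/
theorem exists_pts [Infinite K] (N : ℕ) : ∀ (V : Submodule K (MvPolynomial (Fin (E + 1)) K))
    [Module.Finite K V], Module.finrank K V = N →
    ∃ y : Fin N → Fin (E + 1) → K, ∀ f ∈ V, (∀ k, eval (y k) f = 0) → f = 0 := by
  induction N with
  | zero =>
    intro V _ hV
    refine ⟨fun _ _ => 0, fun f hf _ => ?_⟩
    have h1 : V = ⊥ := Submodule.finrank_eq_zero.1 hV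
    rw [h1, Submodule.mem_bot] at hf
    exact hf
  | succ N ih =>
    intro V _ hV
    have hne : V ≠ ⊥ := by
      intro h0
      rw [h0, finrank_bot] at hV
      omega
    obtain ⟨f0, hf0, hf0'⟩ := Submodule.exists_mem_ne_zero_of_ne_bot hne
    obtain ⟨y0, hy0⟩ : ∃ y0 : Fin (E + 1) → K, eval y0 f0 ≠ 0 := by
      by_contra hcon
      push Not at hcon
      exact hf0' (MvPolynomial.funext fun y => by rw [hcon y, map_zero])
    let φ : V →ₗ[K] K := (MvPolynomial.aeval y0 : MvPolynomial (Fin (E + 1)) K →ₐ[K] K).toLinearMap.comp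
      V.subtype
    have hφ : ∀ v : V, φ v = eval y0 v.1 := fun v => by
      show MvPolynomial.aeval y0 v.1 = _
      rw [MvPolynomial.aeval_eq_eval]
    have hsurj : LinearMap.range φ = ⊤ := by
      refine LinearMap.range_eq_top.2 fun c => ?_
      refine ⟨(c / eval y0 f0) • ⟨f0, hf0⟩, ?_⟩
      rw [map_smul, hφ, smul_eq_mul, div_mul_cancel₀ _ hy0]
    have hker : Module.finrank K (LinearMap.ker φ) = N := by
      have h1 := LinearMap.finrank_range_add_finrank_ker φ
      rw [hsurj, finrank_top, Module.finrank_self, hV] at h1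
      omega
    let V' : Submodule K (MvPolynomial (Fin (E + 1)) K) := (LinearMap.ker φ).map V.subtype
    have hV' : Module.finrank K V' = N := by
      rw [← hker]
      exact (Submodule.equivMapOfInjective V.subtype (Submodule.injective_subtype V) _).symm.finrank_eq
    have hfin : Module.Finite K V' := inferInstance
    obtain ⟨y, hy⟩ := ih V' hV'
    refine ⟨Fin.cons y0 y, fun f hf h => hy f ?_ fun k => ?_⟩
    · refine ⟨⟨f, hf⟩, ?_, rfl⟩
      show φ ⟨f, hf⟩ = 0
      rw [hφ]
      exact h 0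
    · exact h k.succ

theorem eval_of_mem {y : Fin (E + 1) → K} {f : MvPolynomial (Fin (E + 1)) K}
    (h : f ∈ pt y ^ 1) : eval y f = 0 := by
  rw [pow_one] at h
  have h1 : pt y ≤ RingHom.ker (eval y) := by
    unfold pt
    rw [Ideal.span_le]
    rintro _ ⟨j, rfl⟩
    show eval y (X j - C (y j)) = 0
    rw [map_sub, eval_X, eval_C, sub_self]
  exact h1 h

theorem SW.of_surj [Infinite K] {n : ℕ} {w : Fin n → ℕ} {x : Fin n → Fin (E + 1) → K} {d : ℕ}
    (h : SurjAt w x d) : SW K E w (d + 1) := by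
  obtain ⟨V, hV⟩ : ∃ V, V = mspan K (Td E d) ⊓ Submodule.restrictScalars K (Z w x) := ⟨_, rfl⟩
  have hfin : Module.Finite K V := by
    rw [hV, ← coe_dg]
    have := finite_mspan (K := K) (dg E (d + 1))
    exact Submodule.finiteDimensional_of_le inf_le_left
  obtain ⟨y, hy⟩ := exists_pts (Module.finrank K V) V rfl
  have h1 := h.finrank
  rw [finrank_Vd_eq, ← hV] at h1
  refine ⟨Fin (Module.finrank K V), inferInstance, Sum.elim x y, ?_, fun f hf hd => ?_⟩
  · rw [Fintype.card_fin, h1]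
    congr 1
    ring
  · refine hy f ?_ fun k => eval_of_mem (hf (Sum.inr k))
    rw [hV, Submodule.mem_inf, mem_mspan, Submodule.restrictScalars_mem, mem_Z]
    exact ⟨fun α hα => Nat.le_of_lt_succ (hd α hα), fun i => hf (Sum.inl i)⟩

theorem surj_restrict {n n' : ℕ} (e : Fin n ↪ Fin n') {w : Fin n' → ℕ}
    {x : Fin n' → Fin (E + 1) → K} {d : ℕ} (h : SurjAt w x d) :
    SurjAt (fun i => w (e i)) (fun i => x (e i)) d := by
  classical
  intro y
  let φ : Cnd E (fun i => w (e i)) → Cnd E w := fun p => ⟨e p.1, p.2⟩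
  have hφ : Function.Injective φ := by
    rintro ⟨i, s⟩ ⟨j, t⟩ h1
    have h2 : e i = e j := congrArg Sigma.fst h1
    have h3 := e.injective h2
    subst h3
    have h4 : (⟨e i, s⟩ : Cnd E w) = ⟨e i, t⟩ := h1
    have h5 := eq_of_heq (Sigma.mk.inj h4).2
    rw [h5]
  obtain ⟨f, hf, hfy⟩ := h (Function.extend φ y 0)
  refine ⟨f, hf, ?_⟩
  funext p
  have h1 := congrFun hfy (φ p)
  rw [hφ.extend_apply] at h1
  exact h1

/-- The base case. -/
theorem SW.base [Infinite K] {κ : Type} [Fintype κ] {k mm A : ℕ} (hk : 1 ≤ k) (hmm : 0 < mm)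
    (hκ : Fintype.card κ ≤ k ^ (E + 1)) {w : κ → ℕ} (hw : ∀ i, w i ≤ mm)
    (hA : k * (mm + E) + 1 ≤ A) : SW K E w A := by
  obtain ⟨d, rfl⟩ : ∃ d, A = d + 1 := ⟨A - 1, by omega⟩
  have hk1 : (1 : ℝ) ≤ k := by exact_mod_cast hk
  have hk0 : (0 : ℝ) < k := by linarith
  have hbase := base_pts (K := K) (E := E) (fun _ : Fin (k ^ (E + 1)) => mm)
  have hbase' : FFull (ptsFam K E (fun _ : Fin (k ^ (E + 1)) => mm)) (M0 E (k ^ (E + 1)) mm) := by
    refine hbase.mono fun p hp => ?_
    have hp : p 0 + k ^ (E + 1) * ∑ j : Fin E, p j.succ < k ^ (E + 1) * mm := hp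
    show p 0 + k ^ (E + 1) * ∑ j : Fin E, p j.succ < ∑ _i : Fin (k ^ (E + 1)), mm
    rw [Finset.sum_const, Finset.card_univ, Fintype.card_fin, smul_eq_mul]
    exact hp
  have h := rk_main (K := K) (E := E) hbase' hmm (L := (k : ℝ)) (ν := 1) (d := d)
    (fun E t ht => ⟨((k : ℝ) ^ (E + 1 - t)), by
      have h1 : ((k : ℝ) ^ (E + 1 - t)) = ((k ^ (E - t) : ℕ) : ℝ) ^ 2 / (k : ℝ) ^ (E - 1 - t) := by
        rw [eq_div_iff (by positivity)]
        push_cast
        rw [← pow_add, ← pow_mul]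
        congr 1
        omega
      rw [h1]
      refine Up.step _ _ Up.base ?_
      push_cast
      exact pow_le_pow_right₀ hk1 (by omega), le_rfl, by
      rw [div_self (by positivity), Real.sqrt_one]⟩) hk1 one_pos le_rfl (by push_cast; rfl) (by
      rw [one_pow, one_mul]
      have h2 : k * (mm + E) ≤ d := by omega
      exact_mod_cast h2)
  obtain ⟨x, v, hv, hli⟩ := h
  have hs : SurjAt (fun _ : Fin (k ^ (E + 1)) => mm) x d := surj_of_li v hv hli (by
    rw [Finset.sum_const, Finset.card_univ, Fintype.card_fin, smul_eq_mul])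
  let e' := Fintype.equivFin κ
  obtain ⟨e⟩ := Function.Embedding.nonempty_of_card_le (α := Fin (Fintype.card κ))
    (β := Fin (k ^ (E + 1))) (by rwa [Fintype.card_fin, Fintype.card_fin])
  have h1 := surj_restrict e hs
  have h2 : SurjAt (fun i => w (e'.symm i)) (fun i => x (e i)) d :=
    h1.mono_w fun i => hw _
  have h3 := (SW.of_surj h2).equiv e'.symm
  simpa using h3

end Pool.Agent.H852.ND
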