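import Mathlib
import Pool.Agent.H852.ND.SW
import Pool.Agent.H852.ND.General

set_option autoImplicit false

/-!
# Independent conditions: merging of points
-/

namespace Pool.Agent.H852.ND

open MvPolynomial Pool.Agent.H932R5 Pool.Agent.H519R3.AC

universe u

variable {K : Type u} [Field K] {E : ℕ}

/-- All multiplicities with `m i + (2 E + 1) ≤ s i` impose independent conditions in degree `d`. -/
def Sf (K : Type u) [Field K] (E : ℕ) {ι : Type} [Fintype ι] (s : ι → ℝ) (d : ℕ) : Prop :=
  ∀ m : ι → ℕ, (∀ i, m i = 0 ∨ (m i : ℝ) + (2 * E + 1) ≤ s i) → SW K E m (d + 1)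

theorem Sf.merge [Infinite K] {ι : Type} [Fintype ι] [DecidableEq ι] {s : ι → ℝ} (S : Finset ι)
    {k : ℕ} (hk : 2 ≤ k) (hS : S.card ≤ k ^ (E + 1)) {v : ℝ} (hv : ∀ i ∈ S, s i * k ≤ v) {d : ℕ}
    (h : Sf K E (fun o : Option {i // i ∉ S} => o.elim v (fun i => s i.1)) d) : Sf K E s d := by
  classical
  intro m hm
  have hkR : (2 : ℝ) ≤ k := by exact_mod_cast hk
  have hk0 : (0 : ℝ) < k := by linarith
  have hE0 : (0 : ℝ) ≤ E := Nat.cast_nonneg E
  let g : ι → Option {i // i ∉ S} := fun i => if hi : i ∈ S then none else some ⟨i, hi⟩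
  have hg1 : ∀ i, i ∈ S → g i = none := fun i hi => dif_pos hi
  have hg2 : ∀ i (hi : i ∉ S), g i = some ⟨i, hi⟩ := fun i hi => dif_neg hi
  have hg3 : ∀ i, g i = none → i ∈ S := by
    intro i hi
    by_contra hne
    rw [hg2 i hne] at hi
    exact Option.some_ne_none _ hi
  have hg4 : ∀ i (j : {i // i ∉ S}), g i = some j → i = j.1 := by
    intro i j hij
    by_cases h2 : i ∈ S
    · rw [hg1 i h2] at hij
      exact absurd hij.symm (Option.some_ne_none _)
    · rw [hg2 i h2] at hij
      rw [← Option.some.inj hij]
  have hsome : ∀ j : {i // i ∉ S}, SW K E (fun i : {i // g i = some j} => m i.1) (m j.1) := by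
    intro j
    exact SW.single (K := K) (E := E) (⟨j.1, hg2 j.1 j.2⟩ : {i // g i = some j})
      (fun i => Subtype.ext (hg4 i.1 j i.2)) (fun i => m i.1)
  by_cases h0 : ∀ i ∈ S, m i = 0
  · refine SW.comp g (A := fun o => o.elim 0 (fun i => m i.1)) (h _ fun o => ?_) fun j => ?_
    · cases o with
      | none => exact Or.inl rfl
      | some i => exact hm i.1
    · cases j with
      | none => exact SW.zero (fun i => h0 i.1 (hg3 i.1 i.2))
      | some j => exact hsome j
  · push Not at h0
    obtain ⟨i0, hi0, hne⟩ := h0
    have h1 : (m i0 : ℝ) + (2 * E + 1) ≤ s i0 := (hm i0).resolve_left hne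
    have hm1 : (1 : ℝ) ≤ m i0 := by exact_mod_cast Nat.one_le_iff_ne_zero.2 hne
    have h2 := hv i0 hi0
    obtain ⟨y, hy⟩ : ∃ y : ℝ, y = v / k := ⟨_, rfl⟩
    have hyk : y * k = v := by rw [hy]; field_simp
    have hsy : ∀ i ∈ S, s i ≤ y := fun i hi => by
      rw [hy, le_div_iff₀ hk0]
      exact hv i hi
    obtain ⟨mm, hmm⟩ : ∃ mm : ℕ, mm = ⌊y - (2 * E + 1)⌋₊ := ⟨_, rfl⟩
    have hy1 : 1 ≤ y - (2 * E + 1) := by
      have := hsy i0 hi0
      linarith
    have hmm0 : 0 < mm := by
      rw [hmm]
      exact Nat.floor_pos.2 hy1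
    have hmm1 : (mm : ℝ) ≤ y - (2 * E + 1) := by
      rw [hmm]
      exact Nat.floor_le (by linarith)
    have hw : ∀ i ∈ S, m i ≤ mm := by
      intro i hi
      rcases hm i with h3 | h3
      · omega
      · rw [hmm]
        refine Nat.le_floor ?_
        have := hsy i hi
        linarith
    obtain ⟨A, hA⟩ : ∃ A : ℕ, A = ⌊v - (2 * E + 1)⌋₊ := ⟨_, rfl⟩
    have hvy : 2 * y ≤ v := by
      rw [← hyk]
      nlinarith
    have hA1 : (A : ℝ) ≤ v - (2 * E + 1) := by
      rw [hA]
      exact Nat.floor_le (by linarith)
    have hA2 : k * (mm + E) + 1 ≤ A := by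
      rw [hA]
      refine Nat.le_floor ?_
      push_cast
      have h4 : (k : ℝ) * mm ≤ k * (y - (2 * E + 1)) := mul_le_mul_of_nonneg_left hmm1 hk0.le
      have h5 : (2 : ℝ) * (E + 1) ≤ k * (E + 1) := mul_le_mul_of_nonneg_right hkR (by linarith)
      nlinarith
    refine SW.comp g (A := fun o => o.elim A (fun i => m i.1)) (h _ fun o => ?_) fun j => ?_
    · cases o with
      | none =>
        right
        show (A : ℝ) + (2 * E + 1) ≤ v
        linarith
      | some i => exact hm i.1
    · cases j with
      | none =>
        refine SW.base (k := k) (mm := mm) (by omega) hmm0 (le_trans ?_ hS)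
          (fun i => hw i.1 (hg3 i.1 i.2)) hA2
        rw [Fintype.card_subtype]
        refine Finset.card_le_card fun i hi => ?_
        exact hg3 i (Finset.mem_filter.1 hi).2
      | some j => exact hsome j

/-- The waste at level `j`. -/
noncomputable def wj (E B : ℕ) : ℕ → ℝ
  | 0 => (B : ℝ) ^ (E + 1)
  | j + 1 => 1 / 2 ^ j

theorem wj_nonneg (E B j : ℕ) : 0 ≤ wj E B j := by
  rcases j with _ | j
  · unfold wj
    positivity
  · unfold wj
    positivity

theorem sum_wj (E B J : ℕ) : ∑ j ∈ Finset.range J, wj E B j ≤ (B : ℝ) ^ (E + 1) + 2 := by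
  rcases J with _ | J
  · simp only [Finset.range_zero, Finset.sum_empty]
    positivity
  · have h : ∑ j ∈ Finset.range (J + 1), wj E B j = (B : ℝ) ^ (E + 1) + 2 - 2 / 2 ^ J := by
      induction J with
      | zero => simp [wj]
      | succ J ih =>
        rw [Finset.sum_range_succ, ih]
        show _ + (1 : ℝ) / (2 : ℝ) ^ J = _
        rw [pow_succ (2 : ℝ) J]
        field_simp
        ring
    rw [h]
    have : (0 : ℝ) ≤ 2 / 2 ^ J := by positivity
    linarith

theorem SW.allzero [Infinite K] {ι : Type} [Fintype ι] {w : ι → ℕ} (h : ∀ i, w i = 0) (d : ℕ) :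
    SW K E w (d + 1) := by
  let e' := Fintype.equivFin ι
  have h2 : SurjAt (K := K) (E := E) (fun i => w (e'.symm i)) (fun _ _ => 0) d :=
    SurjAt.of_zero (fun i => h _) _ d
  have h3 := (SW.of_surj h2).equiv e'.symm
  simpa using h3

theorem sum_lab {B : ℕ} {ι : Type} [Fintype ι] [DecidableEq ι] (lab : ι → Option (ℕ × ℕ))
    (S : Finset ι) (par : Option (ℕ × ℕ)) (e : ℕ) :
    ∑ o : Option {i // i ∉ S}, gv B (o.elim par (fun i => lab i.1)) ^ e =
      gv B par ^ e + ∑ i ∈ Sᶜ, gv B (lab i) ^ e := by
  rw [Fintype.sum_option]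
  congr 1
  exact (Finset.sum_subtype Sᶜ (fun i => by simp) (fun i => gv B (lab i) ^ e)).symm

theorem coreS [Infinite K] {B k d : ℕ} {t : ℝ} (ht : 0 < t) (hB : 2 ≤ B) (hk : 1 ≤ k)
    (hd : (k : ℝ) * (t * B) ≤ d) (J : ℕ) :
    ∀ (ι : Type) [Fintype ι] (lab : ι → Option (ℕ × ℕ)),
    (∀ i j q, lab i = some (j, q) → B ≤ q ∧ q ≤ 2 * B ∧ j < J) →
    ∑ i, gv B (lab i) ^ (E + 1) + (2 * (B : ℝ) + 1) * ∑ j ∈ Finset.range J, wj E B j ≤
      ((k : ℝ) * B) ^ (E + 1) →
    Sf K E (fun i => t * gv B (lab i)) d := by
  classical
  have hBR : (2 : ℝ) ≤ B := by exact_mod_cast hB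
  have hB0 : (0 : ℝ) < B := by linarith
  have hkR : (1 : ℝ) ≤ k := by exact_mod_cast hk
  have hE0 : (0 : ℝ) ≤ E := Nat.cast_nonneg E
  induction J with
  | zero =>
    intro ι _ lab hlab hY m hm
    have hnone : ∀ i, lab i = none := by
      intro i
      rcases hl : lab i with _ | ⟨j, q⟩
      · rfl
      · exact absurd (hlab i j q hl).2.2 (Nat.not_lt_zero _)
    have hgv : ∀ i, gv B (lab i) = B := fun i => by rw [hnone i]; rfl
    have hm' : ∀ i, m i = 0 ∨ (m i : ℝ) + (2 * E + 1) ≤ t * B := by
      intro i
      have h1 := hm i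
      simp only [hgv i] at h1
      exact h1
    have hcard : Fintype.card ι ≤ k ^ (E + 1) := by
      simp only [hgv, Finset.range_zero, Finset.sum_empty, mul_zero, add_zero, Finset.sum_const,
        Finset.card_univ, nsmul_eq_mul] at hY
      rw [mul_pow] at hY
      have h1 := le_of_mul_le_mul_right hY (by positivity)
      exact_mod_cast h1
    by_cases h0 : ∀ i, m i = 0
    · exact SW.allzero h0 d
    · push Not at h0
      obtain ⟨i0, hne⟩ := h0
      have h1 : (m i0 : ℝ) + (2 * E + 1) ≤ t * B := (hm' i0).resolve_left hne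
      have hm1 : (1 : ℝ) ≤ m i0 := by exact_mod_cast Nat.one_le_iff_ne_zero.2 hne
      obtain ⟨mm, hmm⟩ : ∃ mm : ℕ, mm = ⌊t * B - (2 * E + 1)⌋₊ := ⟨_, rfl⟩
      have hmm0 : 0 < mm := by
        rw [hmm]
        exact Nat.floor_pos.2 (by linarith)
      have hmm1 : (mm : ℝ) ≤ t * B - (2 * E + 1) := by
        rw [hmm]
        exact Nat.floor_le (by linarith)
      refine SW.base (k := k) (mm := mm) hk hmm0 hcard (fun i => ?_) ?_
      · rcases hm' i with h3 | h3
        · omega
        · rw [hmm]
          refine Nat.le_floor ?_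
          linarith
      · have h4 : ((k * (mm + E) : ℕ) : ℝ) ≤ d := by
          push_cast
          refine le_trans ?_ hd
          refine mul_le_mul_of_nonneg_left ?_ (by linarith)
          linarith
        have h5 : k * (mm + E) ≤ d := by exact_mod_cast h4
        omega
  | succ J ihJ =>
    have inner : ∀ Q : ℕ, ∀ N : ℕ, ∀ (ι : Type) [Fintype ι] (lab : ι → Option (ℕ × ℕ)),
        (∀ i j q, lab i = some (j, q) → B ≤ q ∧ q ≤ 2 * B ∧ (j < J ∨ (j = J ∧ q < Q))) →
        Fintype.card ι = N →
        ∑ i, gv B (lab i) ^ (E + 1) + ((2 * (B : ℝ) + 1) * ∑ j ∈ Finset.range J, wj E B j +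
          Q * wj E B J) ≤ ((k : ℝ) * B) ^ (E + 1) →
        Sf K E (fun i => t * gv B (lab i)) d := by
      intro Q
      induction Q with
      | zero =>
        intro N ι _ lab hlab _ hY
        refine ihJ ι lab (fun i j q h => ?_) (by simpa using hY)
        obtain ⟨a, b, c⟩ := hlab i j q h
        exact ⟨a, b, by omega⟩
      | succ Q ihQ =>
        intro N
        induction N using Nat.strong_induction_on with
        | _ N ihN =>
          intro ι _ lab hlab hN hY
          obtain ⟨T, hT⟩ : ∃ T : Finset ι, T = Finset.univ.filter fun i => lab i = some (J, Q) :=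
            ⟨_, rfl⟩
          have hTm : ∀ i, i ∈ T ↔ lab i = some (J, Q) := fun i => by rw [hT]; simp
          have hw0 := wj_nonneg E B J
          rcases T.eq_empty_or_nonempty with hTe | ⟨i0, hi0⟩
          · refine ihQ N ι lab (fun i j q h => ?_) hN (by push_cast at hY ⊢; nlinarith)
            obtain ⟨a, b, c⟩ := hlab i j q h
            refine ⟨a, b, ?_⟩
            rcases c with c | ⟨c1, c2⟩
            · exact Or.inl c
            · refine Or.inr ⟨c1, ?_⟩
              rcases Nat.lt_succ_iff_lt_or_eq.1 c2 with c3 | c3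
              · exact c3
              · exfalso
                have h1 : i ∈ T := (hTm i).2 (by rw [h, c1, c3])
                rw [hTe] at h1
                exact Finset.notMem_empty _ h1
          · obtain ⟨hQ1, hQ2, _⟩ := hlab i0 J Q ((hTm i0).1 hi0)
            have hQR : (B : ℝ) ≤ Q := by exact_mod_cast hQ1
            have hQ0 : (0 : ℝ) < Q := by linarith
            obtain ⟨k0, par, hk0, hpar, hgvp, hwp⟩ : ∃ (k0 : ℕ) (par : Option (ℕ × ℕ)), 2 ≤ k0 ∧
                (∀ j q, par = some (j, q) → B ≤ q ∧ q ≤ 2 * B ∧ j < J) ∧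
                gv B (some (J, Q)) * k0 = gv B par ∧ gv B par ^ (E + 1) ≤ wj E B J := by
              rcases J with _ | J
              · refine ⟨Q, none, by omega, fun j q h => absurd h.symm (Option.some_ne_none _),
                  ?_, le_rfl⟩
                show (B : ℝ) / (2 ^ 0 * Q) * Q = B
                field_simp
              · refine ⟨2, some (J, Q), le_rfl, fun j q h => ?_, ?_, ?_⟩
                · have h8 := Option.some.inj h
                  rw [Prod.mk.injEq] at h8
                  rw [← h8.2, ← h8.1]
                  exact ⟨hQ1, hQ2, Nat.lt_succ_self J⟩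
                · show (B : ℝ) / (2 ^ (J + 1) * Q) * ((2 : ℕ) : ℝ) = B / (2 ^ J * Q)
                  rw [pow_succ]
                  push_cast
                  field_simp
                · show ((B : ℝ) / (2 ^ J * Q)) ^ (E + 1) ≤ 1 / 2 ^ J
                  have h7 : (B : ℝ) / (2 ^ J * Q) ≤ 1 / 2 ^ J := by
                    rw [div_le_div_iff₀ (by positivity) (by positivity), one_mul, mul_comm]
                    exact mul_le_mul_of_nonneg_left hQR (by positivity)
                  have h8 : (1 : ℝ) / 2 ^ J ≤ 1 := by
                    rw [div_le_one (by positivity)]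
                    exact one_le_pow₀ (by norm_num)
                  calc ((B : ℝ) / (2 ^ J * Q)) ^ (E + 1) ≤ (1 / 2 ^ J) ^ (E + 1) :=
                        pow_le_pow_left₀ (by positivity) h7 _
                    _ ≤ (1 / 2 ^ J) ^ 1 := pow_le_pow_of_le_one (by positivity) h8 (by omega)
                    _ = _ := pow_one _
            have hfun : ∀ S : Finset ι, (fun o : Option {i // i ∉ S} =>
                o.elim (t * gv B par) (fun i => t * gv B (lab i.1))) =
                fun o => t * gv B (o.elim par (fun i => lab i.1)) := by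
              intro S
              funext o
              cases o <;> rfl
            rcases le_or_gt (k0 ^ (E + 1)) T.card with hc | hc
            · obtain ⟨S, hS, hSc⟩ := Finset.exists_subset_card_eq hc
              have hSl : ∀ i ∈ S, lab i = some (J, Q) := fun i hi => (hTm i).1 (hS hi)
              refine Sf.merge S hk0 hSc.le (v := t * gv B par) (fun i hi => ?_) ?_
              · rw [hSl i hi, mul_assoc, hgvp]
              · rw [hfun S]
                have h4 : 2 ≤ k0 ^ (E + 1) := hk0.trans (Nat.le_self_pow (by omega) k0)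
                have hcomp : (Finset.univ.filter fun i => i ∉ S) = Sᶜ := by
                  ext i
                  simp
                refine ihN (Fintype.card (Option {i // i ∉ S})) ?_ _ _ (fun o j q ho => ?_) rfl ?_
                · rw [Fintype.card_option, Fintype.card_subtype, hcomp, Finset.card_compl, hSc, hN]
                  have h5 := Finset.card_le_univ S
                  rw [hSc, hN] at h5
                  omega
                · cases o with
                  | none =>
                    obtain ⟨a, b, c⟩ := hpar j q ho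
                    exact ⟨a, b, Or.inl c⟩
                  | some i => exact hlab i.1 j q ho
                · rw [sum_lab]
                  have h5 : gv B par ^ (E + 1) = ∑ i ∈ S, gv B (lab i) ^ (E + 1) := by
                    rw [Finset.sum_congr rfl (fun i hi => by rw [hSl i hi]), Finset.sum_const,
                      hSc, nsmul_eq_mul, ← hgvp, mul_pow]
                    push_cast
                    ring
                  rw [h5, Finset.sum_add_sum_compl]
                  exact hY
            · refine Sf.merge T hk0 hc.le (v := t * gv B par) (fun i hi => ?_) ?_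
              · rw [(hTm i).1 hi, mul_assoc, hgvp]
              · rw [hfun T]
                refine ihQ _ _ _ (fun o j q ho => ?_) rfl ?_
                · cases o with
                  | none =>
                    obtain ⟨a, b, c⟩ := hpar j q ho
                    exact ⟨a, b, Or.inl c⟩
                  | some i =>
                    obtain ⟨a, b, c⟩ := hlab i.1 j q ho
                    refine ⟨a, b, ?_⟩
                    rcases c with c | ⟨c1, c2⟩
                    · exact Or.inl c
                    · refine Or.inr ⟨c1, ?_⟩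
                      rcases Nat.lt_succ_iff_lt_or_eq.1 c2 with c3 | c3
                      · exact c3
                      · exfalso
                        have ho' : lab i.1 = some (j, q) := ho
                        exact i.2 ((hTm i.1).2 (by rw [ho', c1, c3]))
                · rw [sum_lab]
                  have h5 : ∑ i ∈ Tᶜ, gv B (lab i) ^ (E + 1) ≤ ∑ i, gv B (lab i) ^ (E + 1) :=
                    Finset.sum_le_sum_of_subset_of_nonneg (Finset.subset_univ _)
                      (fun i _ _ => pow_nonneg (gv_nonneg B _) _)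
                  push_cast at hY
                  nlinarith
    intro ι _ lab hlab hY
    refine inner (2 * B + 1) (Fintype.card ι) ι lab (fun i j q h => ?_) rfl ?_
    · obtain ⟨a, b, c⟩ := hlab i j q h
      exact ⟨a, b, by omega⟩
    · rw [Finset.sum_range_succ] at hY
      push_cast
      linarith

end Pool.Agent.H852.ND
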