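import Mathlib
import Pool.Agent.H852.ND.Ind

set_option autoImplicit false

/-!
# Independent conditions: all multiplicities
-/

namespace Pool.Agent.H852.ND

open MvPolynomial Pool.Agent.H932R5 Pool.Agent.H519R3.AC

universe u

variable {K : Type u} [Field K] {E : ℕ}

theorem surj_of_empty {n : ℕ} {w : Fin n → ℕ} {x : Fin n → Fin (E + 1) → K} {d : ℕ}
    (h : EmptyAt w x d) (hc : ∑ i, (w i + E).choose (E + 1) = (d + 1 + E).choose (E + 1)) :
    SurjAt w x d := by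
  classical
  have hfin := finite_mspan (K := K) (dg E (d + 1))
  let L : ↥(mspan K (↑(dg E (d + 1)) : Set (Fin (E + 1) →₀ ℕ))) →ₗ[K] (Cnd E w → K) :=
    (cnd w x).comp (Submodule.subtype _)
  have hL : ∀ f, L f = cnd w x f.1 := fun _ => rfl
  have hinj : Function.Injective L := by
    rw [← LinearMap.ker_eq_bot, eq_bot_iff]
    intro f hf
    rw [Submodule.mem_bot]
    obtain ⟨f, hf0⟩ := f
    have h2 : f ∈ mspan K (Td E d) := by
      rw [← coe_dg]
      exact hf0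
    exact Subtype.ext (h f (mem_Z_iff.2 hf) (mem_mspan.1 h2))
  have hrank : Module.finrank K ↥(mspan K (↑(dg E (d + 1)) : Set (Fin (E + 1) →₀ ℕ))) =
      Module.finrank K (Cnd E w → K) := by
    rw [finrank_mspan, card_dg, Module.finrank_fintype_fun_eq_card, card_Cnd, hc]
  have hsurj := (LinearMap.injective_iff_surjective_of_finrank_eq_finrank hrank).1 hinj
  intro y
  obtain ⟨⟨f, hf0⟩, hf⟩ := hsurj y
  refine ⟨f, ?_, hf⟩
  rw [← coe_dg]
  exact hf0

theorem SW.surj {n : ℕ} {w : Fin n → ℕ} {d : ℕ} (h : SW K E w (d + 1)) :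
    ∃ x : Fin n → Fin (E + 1) → K, SurjAt w x d := by
  classical
  obtain ⟨ν, _, x, hc, hx⟩ := h
  let e := Fintype.equivFin (Fin n ⊕ ν)
  have h1 : EmptyAt (E := E) (fun j => Sum.elim w (fun _ => 1) (e.symm j))
      (fun j => x (e.symm j)) d := by
    intro f hf hd
    rw [mem_Z] at hf
    refine hx f (fun i => ?_) (fun α hα => Nat.lt_succ_of_le (hd α hα))
    have := hf (e i)
    simpa using this
  have h2 := surj_of_empty h1 (by
    rw [e.symm.sum_comp (fun i => (Sum.elim w (fun _ => 1) i + E).choose (E + 1)),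
      Fintype.sum_sum_type]
    simp only [Sum.elim_inl, Sum.elim_inr]
    have h3 : (1 + E).choose (E + 1) = 1 := by rw [add_comm, Nat.choose_self]
    rw [h3, Finset.sum_const, Finset.card_univ, smul_eq_mul, mul_one]
    exact hc)
  have h3 := surj_restrict (⟨fun i => e (Sum.inl i), fun a b hab =>
    Sum.inl_injective (e.injective hab)⟩ : Fin n ↪ Fin (Fintype.card (Fin n ⊕ ν))) h2
  refine ⟨fun i => x (Sum.inl i), ?_⟩
  simpa using h3

theorem surj_open {n : ℕ} {w : Fin n → ℕ} {x : Fin n → Fin (E + 1) → K} {d : ℕ}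
    (h : SurjAt w x d) : ∃ F : MvPolynomial (Fin n × Fin (E + 1)) K, F ≠ 0 ∧
      ∀ P : Fin n → Fin (E + 1) → K,
        eval (fun q : Fin n × Fin (E + 1) => P q.1 q.2) F ≠ 0 → SurjAt w P d := by
  classical
  let e := Fintype.equivFin (Cnd E w)
  choose f hf hfy using fun p : Cnd E w => h (Pi.single p 1)
  obtain ⟨F, hF, hF'⟩ := exists_open (w := w) (fun i => f (e.symm i)) x (fun c hc i => by
    rw [mem_Z_iff, map_sum] at hc
    have h1 := congrFun hc (e.symm i)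
    rw [Finset.sum_apply, Pi.zero_apply, Finset.sum_eq_single i] at h1
    · rw [map_smul, hfy, Pi.smul_apply, Pi.single_eq_same, smul_eq_mul, mul_one] at h1
      exact h1
    · intro b _ hb
      rw [map_smul, hfy, Pi.smul_apply, Pi.single_eq_of_ne (fun h0 => hb (e.symm.injective h0).symm),
        smul_zero]
    · intro h0
      exact absurd (Finset.mem_univ i) h0)
  refine ⟨F, hF, fun P hP => surj_of_li _ (fun i => hf _) (hF' P hP) ?_⟩
  rw [card_Cnd]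

/-- **Independence for all multiplicities.** -/
theorem round_surj [Infinite K] {B : ℕ} (hB : 2 ≤ B) {n : ℕ} {m : Fin n → ℕ}
    {d : ℕ} (hd : 0 < d) {σ : ℝ} (hσ : 0 < σ) (hσB : σ * B ≤ 1)
    (hm : ∀ i, (m i : ℝ) + (2 * E + 1) ≤ σ * d)
    (h : (1 + 1 / (B : ℝ)) ^ (E + 1) * ∑ i, ((m i : ℝ) + (2 * E + 1)) ^ (E + 1) +
      (2 * (B : ℝ) + 1) * ((B : ℝ) ^ (E + 1) + 2) * (σ * d) ^ (E + 1) ≤
      ((1 - σ * B) * d) ^ (E + 1)) :
    ∃ x : Fin n → Fin (E + 1) → K, SurjAt m x d := by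
  classical
  have hBR : (2 : ℝ) ≤ B := by exact_mod_cast hB
  have hB0 : (0 : ℝ) < B := by linarith
  have hdR : (0 : ℝ) < d := by exact_mod_cast hd
  have hE0 : (0 : ℝ) ≤ E := Nat.cast_nonneg E
  obtain ⟨t, ht⟩ : ∃ t : ℝ, t = σ * d := ⟨_, rfl⟩
  have ht0 : 0 < t := by rw [ht]; positivity
  rw [← ht] at h
  have hm' : ∀ i, (m i : ℝ) + (2 * E + 1) ≤ t := fun i => by rw [ht]; exact hm i
  have hs0 : ∀ i, 0 < ((m i : ℝ) + (2 * E + 1)) / t := fun i => by
    have : (0 : ℝ) ≤ m i := Nat.cast_nonneg _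
    positivity
  choose j q hq1 hq2 hl hu using fun i =>
    exists_label hB (hs0 i) ((div_le_one ht0).2 (hm' i))
  obtain ⟨k, hk⟩ : ∃ k : ℕ, k = ⌊(d : ℝ) / (t * B)⌋₊ := ⟨_, rfl⟩
  have hk1 : 1 ≤ k := by
    rw [hk]
    refine Nat.le_floor ?_
    rw [Nat.cast_one, le_div_iff₀ (by positivity), one_mul, ht]
    nlinarith
  have hkd : (k : ℝ) * (t * B) ≤ d := by
    have h1 : (k : ℝ) ≤ d / (t * B) := by
      rw [hk]
      exact Nat.floor_le (by positivity)
    rwa [le_div_iff₀ (by positivity)] at h1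
  have hkd2 : (1 - σ * B) * d ≤ (k : ℝ) * B * t := by
    have h1 : (d : ℝ) / (t * B) < k + 1 := by
      rw [hk]
      exact Nat.lt_floor_add_one _
    rw [div_lt_iff₀ (by positivity)] at h1
    have h2 : σ * B * d = t * B := by rw [ht]; ring
    nlinarith
  obtain ⟨J, hJ⟩ : ∃ J, ∀ i, j i < J :=
    ⟨Finset.univ.sup j + 1, fun i => Nat.lt_succ_of_le (Finset.le_sup (Finset.mem_univ i))⟩
  have hcore := coreS (K := K) (E := E) (B := B) (k := k) (d := d) (t := t) ht0 hB hk1 hkd J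
    (Fin n) (fun i => some (j i, q i)) (fun i j' q' h => by
      have h8 := Option.some.inj h
      rw [Prod.mk.injEq] at h8
      rw [← h8.2, ← h8.1]
      exact ⟨hq1 i, hq2 i, hJ i⟩) (by
      have h1 : ∑ i, gv B (some (j i, q i)) ^ (E + 1) ≤
          (1 + 1 / (B : ℝ)) ^ (E + 1) * (∑ i, ((m i : ℝ) + (2 * E + 1)) ^ (E + 1)) /
            t ^ (E + 1) := by
        rw [mul_div_assoc, Finset.sum_div, Finset.mul_sum]
        refine Finset.sum_le_sum fun i _ => ?_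
        rw [← div_pow, ← mul_pow]
        exact pow_le_pow_left₀ (gv_nonneg B _) (hu i) _
      have h2 : (2 * (B : ℝ) + 1) * ∑ j ∈ Finset.range J, wj E B j ≤
          (2 * (B : ℝ) + 1) * ((B : ℝ) ^ (E + 1) + 2) :=
        mul_le_mul_of_nonneg_left (sum_wj E B J) (by positivity)
      have h3 : ((1 - σ * B) * d) ^ (E + 1) ≤ ((k : ℝ) * B) ^ (E + 1) * t ^ (E + 1) := by
        rw [← mul_pow]
        exact pow_le_pow_left₀ (mul_nonneg (by linarith) hdR.le) hkd2 _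
      have h4 : (1 + 1 / (B : ℝ)) ^ (E + 1) * (∑ i, ((m i : ℝ) + (2 * E + 1)) ^ (E + 1)) /
            t ^ (E + 1) + (2 * (B : ℝ) + 1) * ((B : ℝ) ^ (E + 1) + 2) ≤
          ((k : ℝ) * B) ^ (E + 1) := by
        have h5 : 0 < t ^ (E + 1) := by positivity
        rw [div_add' _ _ _ h5.ne', div_le_iff₀ h5]
        linarith
      linarith)
  refine SW.surj (hcore m fun i => Or.inr ?_)
  have h1 := hl i
  rw [div_le_iff₀ ht0] at h1
  exact h1.trans (le_of_eq (mul_comm _ _))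

/-- The constants. -/
theorem exists_surj_cst (E : ℕ) {ε : ℝ} (hε : 0 < ε) :
    ∃ B : ℕ, 2 ≤ B ∧ ∃ σ : ℝ, 0 < σ ∧ σ * B ≤ 1 ∧
      (1 + 1 / (B : ℝ)) ^ (E + 1) * (1 - ε) +
        (2 * (B : ℝ) + 1) * ((B : ℝ) ^ (E + 1) + 2) * σ ^ (E + 1) ≤ (1 - σ * B) ^ (E + 1) := by
  have hlim : Filter.Tendsto (fun B : ℕ => (1 + 1 / (B : ℝ)) ^ (E + 1) * (1 - ε) +
      9 * (1 / (B : ℝ)) - (1 - 1 / (B : ℝ)) ^ (E + 1)) Filter.atTop
      (nhds ((1 + 0) ^ (E + 1) * (1 - ε) + 9 * 0 - (1 - 0) ^ (E + 1))) := by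
    have h1 : Filter.Tendsto (fun B : ℕ => 1 / (B : ℝ)) Filter.atTop (nhds 0) :=
      tendsto_one_div_atTop_nhds_zero_nat
    exact ((((tendsto_const_nhds.add h1).pow (E + 1)).mul_const (1 - ε)).add
      (h1.const_mul 9)).sub ((tendsto_const_nhds.sub h1).pow (E + 1))
  have h2 : (1 + 0 : ℝ) ^ (E + 1) * (1 - ε) + 9 * 0 - (1 - 0) ^ (E + 1) < 0 := by
    simp only [add_zero, sub_zero, one_pow, mul_zero, one_mul]
    linarith
  have h3 := (hlim.eventually (gt_mem_nhds h2)).and (Filter.eventually_ge_atTop 2)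
  obtain ⟨B, hB1, hB2⟩ := h3.exists
  have hBR : (2 : ℝ) ≤ B := by exact_mod_cast hB2
  have hB0 : (0 : ℝ) < B := by linarith
  have hone : (1 : ℝ) ≤ B := by linarith
  have hσB : 1 / (B : ℝ) ^ 3 * B ≤ 1 / (B : ℝ) := by
    rw [one_div_mul_eq_div, div_le_div_iff₀ (by positivity) hB0, one_mul]
    calc (B : ℝ) * B = (B : ℝ) ^ 2 := (sq _).symm
      _ ≤ (B : ℝ) ^ 3 := pow_le_pow_right₀ hone (by norm_num)
  have hB1' : 1 / (B : ℝ) ≤ 1 := by
    rw [div_le_one hB0]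
    exact hone
  refine ⟨B, hB2, 1 / (B : ℝ) ^ 3, by positivity, hσB.trans hB1', ?_⟩
  have h4 : (2 * (B : ℝ) + 1) * ((B : ℝ) ^ (E + 1) + 2) * (1 / (B : ℝ) ^ 3) ^ (E + 1) ≤
      9 * (1 / (B : ℝ)) := by
    have h5 : (1 : ℝ) ≤ (B : ℝ) ^ (E + 1) := one_le_pow₀ hone
    have h6 : (2 * (B : ℝ) + 1) * ((B : ℝ) ^ (E + 1) + 2) ≤ (3 * B) * (3 * (B : ℝ) ^ (E + 1)) :=
      mul_le_mul (by linarith) (by linarith) (by positivity) (by positivity)
    have h7 : (1 / (B : ℝ) ^ 3) ^ (E + 1) = 1 / ((B : ℝ) ^ (E + 1)) ^ 3 := by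
      rw [div_pow, one_pow, ← pow_mul, ← pow_mul]
      congr 2
      ring
    rw [h7]
    refine (mul_le_mul_of_nonneg_right h6 (by positivity)).trans ?_
    have h8 : (3 * (B : ℝ)) * (3 * (B : ℝ) ^ (E + 1)) * (1 / ((B : ℝ) ^ (E + 1)) ^ 3) =
        9 * (B * (1 / ((B : ℝ) ^ (E + 1)) ^ 2)) := by
      field_simp
      ring
    rw [h8]
    refine mul_le_mul_of_nonneg_left ?_ (by norm_num)
    rw [mul_one_div, div_le_div_iff₀ (by positivity) hB0, one_mul]
    calc (B : ℝ) * B = (B : ℝ) ^ 2 := (sq _).symm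
      _ ≤ ((B : ℝ) ^ (E + 1)) ^ 2 := by
        refine pow_le_pow_left₀ hB0.le ?_ 2
        exact le_self_pow₀ hone (by omega)
  have h9 : (1 - 1 / (B : ℝ)) ^ (E + 1) ≤ (1 - 1 / (B : ℝ) ^ 3 * B) ^ (E + 1) :=
    pow_le_pow_left₀ (by linarith) (by linarith) _
  linarith

end Pool.Agent.H852.ND
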